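import Pool.Agent.V5helper31.CF.Base

set_option autoImplicit false
set_option linter.unusedSectionVars false

/-! Homomorphisms of `Aut(F_n)` which kill the transvections `x_i ↦ x_i [[x_j, x_k], x_l]`. -/

namespace Pool.Agent.V5helper31.CG

open Pool.Agent.Helper460_OutF Pool.Agent.Helper460_CSP Pool.Agent.V5helper31.CF
open FreeGroup (of)
open Pool.Agent.Helper156.OF (SP toAut toAut_gl gl nv gl_nv gl_true Lt SP.map_nv Rel rel_aut eAut sg
  sg_left sg_right sg_other)
open scoped commutatorElement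

variable {ι : Type}

section cl

variable {G : Type} [Group G] {ρ : FreeGroup ι →* G}

/-- the image is nilpotent of class at most two -/
def Cl2 (ρ : FreeGroup ι →* G) : Prop :=
  ∀ u v w : FreeGroup ι, Commute (ρ ⁅u, v⁆) (ρ w)

lemma comm_mul_right' {G : Type*} [Group G] (x a b : G) : ⁅x, a * b⁆ = ⁅x, a⁆ * (a * ⁅x, b⁆ * a⁻¹) := by
  simp only [commutatorElement_def]; group

lemma comm_mul_left' {G : Type*} [Group G] (a b x : G) : ⁅a * b, x⁆ = (a * ⁅b, x⁆ * a⁻¹) * ⁅a, x⁆ := by
  simp only [commutatorElement_def]; group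

lemma comm_inv_right' {G : Type*} [Group G] (x a : G) : ⁅x, a⁻¹⁆ = a⁻¹ * ⁅x, a⁆⁻¹ * a := by
  simp only [commutatorElement_def]; group

lemma comm_inv_left' {G : Type*} [Group G] (a x : G) : ⁅a⁻¹, x⁆ = a⁻¹ * ⁅a, x⁆⁻¹ * a := by
  simp only [commutatorElement_def]; group

lemma conj_of_commute {a b : G} (h : Commute b a) : a * b * a⁻¹ = b := by
  rw [mul_inv_eq_iff_eq_mul]; exact h.eq.symm

lemma conj_of_commute' {a b : G} (h : Commute b a) : a⁻¹ * b * a = b := by
  rw [mul_assoc, h.eq, inv_mul_cancel_left]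

lemma Cl2.of_gen (h : ∀ j k l : ι, Commute (ρ ⁅of j, of k⁆) (ρ (of l))) : Cl2 ρ := by
  have h1 : ∀ (j k : ι) (w : FreeGroup ι), Commute (ρ ⁅of j, of k⁆) (ρ w) := by
    intro j k w
    induction w using FreeGroup.induction_on with
    | C1 => rw [map_one]; exact Commute.one_right _
    | of l => exact h j k l
    | inv_of l ih => rw [map_inv]; exact ih.inv_right
    | mul a b ha hb => rw [map_mul]; exact ha.mul_right hb
  have h2 : ∀ (j : ι) (v w : FreeGroup ι), Commute (ρ ⁅of j, v⁆) (ρ w) := by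
    intro j v
    induction v using FreeGroup.induction_on with
    | C1 => intro w; rw [commutatorElement_one_right, map_one]; exact Commute.one_left _
    | of l => exact h1 j l
    | inv_of l ih =>
      intro w
      show Commute (ρ ⁅of j, (of l)⁻¹⁆) (ρ w)
      rw [comm_inv_right', map_mul, map_mul, map_inv, map_inv,
        conj_of_commute' ((h1 j l (of l)).inv_left)]
      exact (h1 j l w).inv_left
    | mul a b ha hb =>
      intro w
      rw [comm_mul_right', map_mul, map_mul, map_mul, map_inv, conj_of_commute (hb a)]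
      exact (ha w).mul_left (hb w)
  intro u v
  induction u using FreeGroup.induction_on with
  | C1 => intro w; rw [commutatorElement_one_left, map_one]; exact Commute.one_left _
  | of l => exact h2 l v
  | inv_of l ih =>
    intro w
    show Commute (ρ ⁅(of l)⁻¹, v⁆) (ρ w)
    rw [comm_inv_left', map_mul, map_mul, map_inv, map_inv,
      conj_of_commute' ((h2 l v (of l)).inv_left)]
    exact (h2 l v w).inv_left
  | mul a b ha hb =>
    intro w
    rw [comm_mul_left', map_mul, map_mul, map_mul, map_inv, conj_of_commute (hb a)]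
    exact (hb w).mul_left (ha w)

lemma Cl2.mul_left (h : Cl2 ρ) (a b x : FreeGroup ι) : ρ ⁅a * b, x⁆ = ρ ⁅a, x⁆ * ρ ⁅b, x⁆ := by
  rw [comm_mul_left', map_mul, map_mul, map_mul, map_inv, conj_of_commute (h b x a)]
  have := h b x ⁅a, x⁆
  exact this.eq

lemma Cl2.mul_right (h : Cl2 ρ) (x a b : FreeGroup ι) : ρ ⁅x, a * b⁆ = ρ ⁅x, a⁆ * ρ ⁅x, b⁆ := by
  rw [comm_mul_right', map_mul, map_mul, map_mul, map_inv, conj_of_commute (h x b a)]

lemma Cl2.inv_right (h : Cl2 ρ) (x a : FreeGroup ι) : ρ ⁅x, a⁻¹⁆ = (ρ ⁅x, a⁆)⁻¹ := by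
  rw [comm_inv_right', map_mul, map_mul, map_inv, map_inv,
    conj_of_commute' ((h x a a).inv_left)]

lemma Cl2.inv_left (h : Cl2 ρ) (a x : FreeGroup ι) : ρ ⁅a⁻¹, x⁆ = (ρ ⁅a, x⁆)⁻¹ := by
  rw [comm_inv_left', map_mul, map_mul, map_inv, map_inv,
    conj_of_commute' ((h a x a).inv_left)]

lemma Cl2.conj (h : Cl2 ρ) (g u v : FreeGroup ι) : ρ (g * ⁅u, v⁆ * g⁻¹) = ρ ⁅u, v⁆ := by
  rw [map_mul, map_mul, map_inv, conj_of_commute (h u v g)]

end cl

section k3

variable [DecidableEq ι] {G : Type} [Group G] {q : MulAut (FreeGroup ι) →* G}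

/-- `q` kills the transvections by triple commutators `x_i ↦ x_i [[x_j, x_k], x_l]`. -/
def K3 (q : MulAut (FreeGroup ι) →* G) : Prop :=
  ∀ i j k l : ι, i ≠ j → i ≠ k → i ≠ l → j ≠ k → j ≠ l → k ≠ l →
    q (rr i ⁅⁅of j, of k⁆, of l⁆) = 1

variable [Fintype ι]

lemma K3.crr (h : K3 q) (h4 : 4 ≤ Fintype.card ι) (i : ι) : Cl2 (q.comp (rr i)) := by
  have h0 : ∀ j k l : ι, i ≠ j → i ≠ k → i ≠ l → j ≠ k → j ≠ l → k ≠ l →
      Commute (q (rr i ⁅of j, of k⁆)) (q (rr i (of l))) := by
    intro j k l h1 h2 h3 h5 h6 h7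
    rw [← commutatorElement_eq_one_iff_commute, ← map_commutatorElement, ← map_commutatorElement]
    exact h i j k l h1 h2 h3 h5 h6 h7
  -- repeated letters
  have hrep : ∀ j k l : ι, i ≠ j → i ≠ k → j ≠ k → (l = j ∨ l = k) →
      Commute (q (rr i ⁅of j, of k⁆)) (q (rr i (of l))) := by
    intro j k l h1 h2 h5 hl
    obtain ⟨m, hmi, hmj, hmk⟩ := out3 h4 i j k
    have hli : l ≠ i := by rcases hl with rfl | rfl <;> [exact Ne.symm h1; exact Ne.symm h2]
    have hlm : l ≠ m := by rcases hl with rfl | rfl <;> [exact Ne.symm hmj; exact Ne.symm hmk]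
    have c1 := h0 j k m h1 h2 (Ne.symm hmi) h5 (Ne.symm hmj) (Ne.symm hmk)
    have hP : Pres i (rr m (of l)) := CF.pres_rr (Ne.symm hmi) (kil_ne hli)
    have e1 := hP.rr ⁅of j, of k⁆
    have e2 := hP.rr (of m)
    rw [map_commutatorElement (rr m (of l)), rr_ne (Ne.symm hmj), rr_ne (Ne.symm hmk)] at e1
    rw [rr_self, kil_ne hlm] at e2
    have c2 : Commute (q (rr i ⁅of j, of k⁆))
        (q (rr i (of m * of l))) := by
      rw [← e1, ← e2]
      simp only [map_mul, map_inv]
      exact (Commute.conj_iff _).2 c1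
    rw [map_mul, map_mul] at c2
    have c3 := c1.inv_right.mul_right c2
    rwa [inv_mul_cancel_left] at c3
  apply Cl2.of_gen
  intro j k l
  show Commute (q (rr i ⁅of j, of k⁆)) (q (rr i (of l)))
  by_cases h1 : i = j
  · subst h1
    rw [map_commutatorElement, rr_of_self, commutatorElement_one_left, map_one]
    exact Commute.one_left _
  by_cases h2 : i = k
  · subst h2
    rw [map_commutatorElement, rr_of_self, commutatorElement_one_right, map_one]
    exact Commute.one_left _
  by_cases h3 : i = l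
  · subst h3
    rw [rr_of_self, map_one]
    exact Commute.one_right _
  by_cases h5 : j = k
  · subst h5
    rw [commutatorElement_self, map_one, map_one]
    exact Commute.one_left _
  by_cases h6 : j = l
  · exact hrep j k l h1 h2 h5 (Or.inl h6.symm)
  by_cases h7 : k = l
  · exact hrep j k l h1 h2 h5 (Or.inr h7.symm)
  exact h0 j k l h1 h2 h3 h5 h6 h7

lemma K3.cll (h : K3 q) (h4 : 4 ≤ Fintype.card ι) (i : ι) : Cl2 (q.comp (ll i)) := by
  have e : ∀ w, q (ll i w) = q (toAut (negA : SP ι)) *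
      q (rr i (toAut (negA : SP ι) w)) * (q (toAut (negA : SP ι)))⁻¹ := by
    intro w
    rw [← map_inv, ← map_mul, ← map_mul, negA_rr, negA_negA]
  intro u v w
  show Commute (q (ll i ⁅u, v⁆)) (q (ll i w))
  rw [e, e, map_commutatorElement (toAut (negA : SP ι))]
  exact (Commute.conj_iff _).2 (h.crr h4 i _ _ _)

lemma K3.ccc (h : K3 q) (h4 : 4 ≤ Fintype.card ι) (i : ι) : Cl2 (q.comp (cc i)) := by
  intro u v w
  show Commute (q (cc i ⁅u, v⁆)) (q (cc i w))
  rw [cc_eq, cc_eq, map_mul, map_mul]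
  have c1 : Commute (q (ll i ⁅u, v⁆)) (q (ll i w)) := h.cll h4 i u v w
  have c2 : Commute (q (rr i ⁅u, v⁆)) (q (rr i w)) := h.crr h4 i u v w
  have c3 : ∀ u w, Commute (q (ll i u)) (q (rr i w)) :=
    fun u w => ll_rr_comm' i u w
  exact ((c1.mul_right (c3 _ _)).mul_left ((c3 _ _).symm.mul_right c2))

/-- `cc i [u, v]` commutes with everything at `i` -/
lemma K3.cc_rr (h : K3 q) (h4 : 4 ≤ Fintype.card ι) (i : ι) (u v w : FreeGroup ι) :
    Commute (q (cc i ⁅u, v⁆)) (q (rr i w)) := by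
  rw [cc_eq, map_mul]
  exact (ll_rr_comm' i _ w).mul_left (h.crr h4 i u v w)

lemma K3.cc_ll (h : K3 q) (h4 : 4 ≤ Fintype.card ι) (i : ι) (u v w : FreeGroup ι) :
    Commute (q (cc i ⁅u, v⁆)) (q (ll i w)) := by
  rw [cc_eq, map_mul]
  exact Commute.mul_left (h.cll h4 i u v w) (ll_rr_comm' i w _).symm

lemma K3.cc_rr2 (h : K3 q) (h4 : 4 ≤ Fintype.card ι) {i m j k : ι} (him : i ≠ m) (hji : j ≠ i)
    (hki : k ≠ i) (hjm : j ≠ m) (hkm : k ≠ m) :
    Commute (q (cc i ⁅of j, of k⁆)) (q (rr m (of i))) := by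
  apply commute_of_conj'
  rw [← map_inv, ← map_mul, ← map_mul,
    (CF.pres_cc (i := m) (Ne.symm him) (kil_comm2 hjm hkm)).rr, cc_self, kil_comm2 hji hki]
  have c1 : Commute (q (rr m ⁅of j, of k⁆)) (q (rr m (of i))) := h.crr h4 m _ _ _
  simp only [map_mul, map_inv (rr m), map_inv q]
  rw [(c1.inv_left).eq, inv_mul_cancel_right]

lemma K3.indep (h : K3 q) (h4 : 4 ≤ Fintype.card ι) {i m j k : ι} (hji : j ≠ i)
    (hki : k ≠ i) (hjm : j ≠ m) (hkm : k ≠ m) :
    q (cc i ⁅of j, of k⁆) = q (cc m ⁅of j, of k⁆) := by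
  by_cases him : i = m
  · rw [him]
  let σ : SP ι := sg (i, true) (m, true)
  have s1 : (σ : Equiv.Perm (Lt ι)) (i, true) = nv (m, true) := sg_left
  have s2 : (σ : Equiv.Perm (Lt ι)) (m, true) = (i, true) := sg_right him
  have s3 : ∀ c : Lt ι, c.1 ≠ i → c.1 ≠ m → (σ : Equiv.Perm (Lt ι)) c = c :=
    fun c h1 h2 => sg_other h1 h2
  have : Nonempty ι := ⟨i⟩
  have R := rel_aut (α := ι)
  have k1 := R.e4 (i, true) (m, true) σ him s1 s2 s3
  have e1 : eAut (nv (i, true)) ((m, true) : Lt ι) = ll i (of m) := by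
    rw [eAut_eq _ _ (show (nv (i, true) : Lt ι).1 ≠ (m, true).1 from him), if_neg (by simp [nv]),
      gl_true]
    rfl
  have e2 : eAut ((m, true) : Lt ι) (i, true) = rr m (of i) := by
    rw [eAut_eq _ _ (show ((m, true) : Lt ι).1 ≠ (i, true).1 from Ne.symm him), if_pos rfl,
      gl_true]
  have e3 : eAut ((i, true) : Lt ι) (m, true) = rr i (of m) := by
    rw [eAut_eq _ _ (show ((i, true) : Lt ι).1 ≠ (m, true).1 from him), if_pos rfl, gl_true]
  rw [e1, e2, e3] at k1
  have k2 : toAut σ = ll i (of m) * rr m (of i) * (rr i (of m))⁻¹ := by rw [k1]; group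
  have c1 : Commute (q (cc i ⁅of j, of k⁆)) (q (toAut σ)) := by
    rw [k2, map_mul, map_mul, map_inv]
    exact ((h.cc_ll h4 i _ _ _).mul_right (h.cc_rr2 h4 him hji hki hjm hkm)).mul_right
      (h.cc_rr h4 i _ _ _).inv_right
  have c2 := sp_cc (q := q) σ i ⁅of j, of k⁆
  rw [← c1.eq, mul_inv_cancel_right] at c2
  rw [c2]
  have e4 : spi σ i = m := by
    unfold spi
    rw [s1]
    rfl
  have e5 : ∀ j : ι, j ≠ i → j ≠ m → toAut σ (of j) = of j := by
    intro j h1 h2
    rw [← gl_true, toAut_gl, s3 (j, true) h1 h2]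
  rw [e4, map_commutatorElement, e5 j hji hjm, e5 k hki hkm]

/-! ### the subgroup generated by the partial conjugations by commutators -/

variable (q) in
/-- the subgroup generated by the classes of the partial conjugations by commutators -/
def ZZ : Subgroup G := Subgroup.closure {g | ∃ i j k : ι, i ≠ j ∧ i ≠ k ∧ g = q (cc i ⁅of j, of k⁆)}

lemma cc_mem_ZZ (h : K3 q) (h4 : 4 ≤ Fintype.card ι) (i : ι) (u v : FreeGroup ι) :
    q (cc i ⁅u, v⁆) ∈ ZZ q := by
  have hc := h.ccc h4 i
  have h1 : ∀ j k : ι, q (cc i ⁅of j, of k⁆) ∈ ZZ q := by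
    intro j k
    by_cases h1 : i = j
    · subst h1
      rw [map_commutatorElement, cc_of_self, commutatorElement_one_left, map_one]
      exact one_mem _
    by_cases h2 : i = k
    · subst h2
      rw [map_commutatorElement, cc_of_self, commutatorElement_one_right, map_one]
      exact one_mem _
    exact Subgroup.subset_closure ⟨i, j, k, h1, h2, rfl⟩
  have h2 : ∀ (j : ι) (v : FreeGroup ι), q (cc i ⁅of j, v⁆) ∈ ZZ q := by
    intro j v
    induction v using FreeGroup.induction_on with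
    | C1 => rw [commutatorElement_one_right, map_one, map_one]; exact one_mem _
    | of l => exact h1 j l
    | inv_of l ih =>
      have := hc.inv_right (of j) (of l)
      show q (cc i ⁅of j, (of l)⁻¹⁆) ∈ _
      rw [MonoidHom.comp_apply, MonoidHom.comp_apply] at this
      rw [this]
      exact inv_mem (h1 j l)
    | mul a b ha hb =>
      have := hc.mul_right (of j) a b
      simp only [MonoidHom.comp_apply] at this
      rw [this]
      exact mul_mem ha hb
  induction u using FreeGroup.induction_on with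
  | C1 => rw [commutatorElement_one_left, map_one, map_one]; exact one_mem _
  | of l => exact h2 l v
  | inv_of l ih =>
    have := hc.inv_left (of l) v
    show q (cc i ⁅(of l)⁻¹, v⁆) ∈ _
    rw [MonoidHom.comp_apply, MonoidHom.comp_apply] at this
    rw [this]
    exact inv_mem (h2 l v)
  | mul a b ha hb =>
    have := hc.mul_left a b v
    simp only [MonoidHom.comp_apply] at this
    rw [this]
    exact mul_mem ha hb

lemma K3.ZZ_comm (h : K3 q) (h5 : 5 ≤ Fintype.card ι) {a b : G} (ha : a ∈ ZZ q)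
    (hb : b ∈ ZZ q) : Commute a b := by
  have h4 : 4 ≤ Fintype.card ι := by omega
  have h0 : ∀ i j k, i ≠ j → i ≠ k → ∀ p l m, p ≠ l → p ≠ m →
      Commute (q (cc i ⁅of j, of k⁆)) (q (cc p ⁅of l, of m⁆)) := by
    intro i j k h1 h2 p l m h3 h4'
    obtain ⟨s, s1, s2, s3, s4⟩ := out4 h5 j k l m
    rw [h.indep h4 (m := s) (Ne.symm h1) (Ne.symm h2) (Ne.symm s1) (Ne.symm s2),
      h.indep h4 (m := s) (Ne.symm h3) (Ne.symm h4') (Ne.symm s3) (Ne.symm s4)]
    exact h.ccc h4 s _ _ _
  have h1 : ∀ i j k, i ≠ j → i ≠ k → ∀ b ∈ ZZ q,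
      Commute (q (cc i ⁅of j, of k⁆)) b := by
    intro i j k h1 h2 b hb
    induction hb using Subgroup.closure_induction with
    | mem x hx =>
      obtain ⟨p, l, m, h3, h4', rfl⟩ := hx
      exact h0 i j k h1 h2 p l m h3 h4'
    | one => exact Commute.one_right _
    | mul x y _ _ hx hy => exact hx.mul_right hy
    | inv x _ hx => exact hx.inv_right
  induction ha using Subgroup.closure_induction with
  | mem x hx =>
    obtain ⟨p, l, m, h3, h4', rfl⟩ := hx
    exact h1 p l m h3 h4' b hb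
  | one => exact Commute.one_left _
  | mul x y _ _ hx hy => exact hx.mul_left hy
  | inv x _ hx => exact hx.inv_left

lemma conj_ZZ_of {g : G} (hg : ∀ i j k, i ≠ j → i ≠ k →
    g * q (cc i ⁅of j, of k⁆) * g⁻¹ ∈ ZZ q) : ∀ a ∈ ZZ q, g * a * g⁻¹ ∈ ZZ q := by
  apply conj_closure
  rintro a ⟨i, j, k, h1, h2, rfl⟩
  exact hg i j k h1 h2

lemma K3.conj_pres (h : K3 q) (h5 : 5 ≤ Fintype.card ι) {φ : MulAut (FreeGroup ι)} {p r : ι}
    (hφ : ∀ m, m ≠ p → m ≠ r → Pres m φ) : ∀ i j k, i ≠ j → i ≠ k →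
      q φ * q (cc i ⁅of j, of k⁆) * (q φ)⁻¹ ∈ ZZ q := by
  intro i j k h1 h2
  have h4 : 4 ≤ Fintype.card ι := by omega
  obtain ⟨s, s1, s2, s3, s4⟩ := out4 h5 j k p r
  rw [h.indep h4 (m := s) (Ne.symm h1) (Ne.symm h2) (Ne.symm s1) (Ne.symm s2), ← map_inv,
    ← map_mul, ← map_mul, (hφ s s3 s4).cc, map_commutatorElement]
  exact cc_mem_ZZ h h4 _ _ _

lemma K3.all_norm (h : K3 q) (h5 : 5 ≤ Fintype.card ι) (x : MulAut (FreeGroup ι)) :
    q x ∈ Subgroup.normalizer (ZZ q : Set G) := by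
  have h4 : 4 ≤ Fintype.card ι := by omega
  have hsp : ∀ σ : SP ι, ∀ a ∈ ZZ q, q (toAut σ) * a * (q (toAut σ))⁻¹ ∈ ZZ q := by
    intro σ
    apply conj_ZZ_of
    intro i j k _ _
    rw [sp_cc, map_commutatorElement]
    exact cc_mem_ZZ h h4 _ _ _
  have hrr : ∀ i w, q (rr i w) ∈ Subgroup.normalizer (ZZ q : Set G) := by
    intro i w
    induction w using FreeGroup.induction_on with
    | C1 => rw [map_one, map_one]; exact one_mem _
    | of j =>
      show q (rr i (of j)) ∈ _
      refine mem_norm_of_both (conj_ZZ_of (h.conj_pres h5 (p := i) (r := j) fun m m1 m2 =>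
        CF.pres_rr m1 (kil_of_letter m2))) ?_
      have := conj_ZZ_of (q := q) (g := q (rr i (of j)⁻¹))
        (h.conj_pres h5 (p := i) (r := j)
        fun m m1 m2 => CF.pres_rr m1 (by rw [map_inv, kil_of_letter m2]))
      rw [map_inv, map_inv, inv_inv] at this
      exact this
    | inv_of j ih =>
      have ih' : q (rr i (of j)) ∈ Subgroup.normalizer (ZZ q : Set G) := ih
      show q (rr i (of j)⁻¹) ∈ _
      rw [map_inv, map_inv]
      exact inv_mem ih'
    | mul a b ha hb => rw [map_mul, map_mul]; exact mul_mem ha hb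
  have hll : ∀ i w, q (ll i w) ∈ Subgroup.normalizer (ZZ q : Set G) := by
    intro i w
    induction w using FreeGroup.induction_on with
    | C1 => rw [map_one, map_one]; exact one_mem _
    | of j =>
      show q (ll i (of j)) ∈ _
      refine mem_norm_of_both (conj_ZZ_of (h.conj_pres h5 (p := i) (r := j) fun m m1 m2 =>
        CF.pres_ll m1 (kil_of_letter m2))) ?_
      have := conj_ZZ_of (q := q) (g := q (ll i (of j)⁻¹))
        (h.conj_pres h5 (p := i) (r := j)
        fun m m1 m2 => CF.pres_ll m1 (by rw [map_inv, kil_of_letter m2]))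
      rw [map_inv, map_inv, inv_inv] at this
      exact this
    | inv_of j ih =>
      have ih' : q (ll i (of j)) ∈ Subgroup.normalizer (ZZ q : Set G) := ih
      show q (ll i (of j)⁻¹) ∈ _
      rw [map_inv, map_inv]
      exact inv_mem ih'
    | mul a b ha hb => rw [map_mul, map_mul]; exact mul_mem ha hb
  have h1 : (Subgroup.normalizer (ZZ q : Set G)).comap q = ⊤ := by
    apply gen_top
    · intro σ
      refine mem_norm_of_both (hsp σ) ?_
      have := hsp σ⁻¹
      rw [map_inv, map_inv, inv_inv] at this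
      exact this
    · exact hrr
    · exact hll
  have h2 : x ∈ (Subgroup.normalizer (ZZ q : Set G)).comap q := by rw [h1]; trivial
  exact h2

end k3

end Pool.Agent.V5helper31.CG
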