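import Pool.Agent.V5helper31.CG.A

set_option autoImplicit false
set_option linter.unusedSectionVars false

/-! Homomorphisms of `Aut(F_n)` which kill the partial conjugations by commutators
`x_i ↦ [x_j, x_k]⁻¹ x_i [x_j, x_k]`: they kill the inner automorphisms by commutators. -/

namespace Pool.Agent.V5helper31.CG

open Pool.Agent.Helper460_OutF Pool.Agent.Helper460_CSP Pool.Agent.V5helper31.CF
open FreeGroup (of)
open scoped commutatorElement

variable {ι : Type} [DecidableEq ι] {G : Type} [Group G] {q : MulAut (FreeGroup ι) →* G}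

/-- `q` kills the partial conjugations by commutators -/
def KZ (q : MulAut (FreeGroup ι) →* G) : Prop :=
  ∀ i j k : ι, i ≠ j → i ≠ k → q (cc i ⁅of j, of k⁆) = 1

lemma KZ.one (h : KZ q) (i : ι) (u v : FreeGroup ι) : q (cc i ⁅u, v⁆) = 1 := by
  rw [map_commutatorElement, map_commutatorElement, commutatorElement_eq_one_iff_commute]
  refine commute_of_gen (q.comp (cc i)) (fun j k => ?_) u v
  show Commute (q (cc i (of j))) (q (cc i (of k)))
  by_cases hj : i = j
  · subst hj; rw [cc_of_self, map_one]; exact Commute.one_left _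
  by_cases hk : i = k
  · subst hk; rw [cc_of_self, map_one]; exact Commute.one_right _
  rw [← commutatorElement_eq_one_iff_commute, ← map_commutatorElement, ← map_commutatorElement]
  exact h i j k hj hk

lemma KZ.cc_comm (h : KZ q) (i : ι) (u v : FreeGroup ι) :
    Commute (q (cc i u)) (q (cc i v)) := by
  rw [← commutatorElement_eq_one_iff_commute, ← map_commutatorElement, ← map_commutatorElement]
  exact h.one i u v

lemma KZ.cc_conj (h : KZ q) (i : ι) (u v : FreeGroup ι) :
    q (cc i (u⁻¹ * v * u)) = q (cc i v) := by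
  simp only [map_mul, map_inv (cc i), map_inv q]
  rw [conj_of_commute' (h.cc_comm i v u)]

lemma KZ.k3 (h : KZ q) : K3 q := by
  intro i j k l _ _ _ _ _ _
  rw [map_commutatorElement (rr i), map_commutatorElement q, commutatorElement_eq_one_iff_commute]
  have h1 := h.one i (of j) (of k)
  rw [cc_eq, map_mul] at h1
  rw [eq_inv_of_mul_eq_one_right h1]
  exact (ll_rr_comm' i _ _).inv_left

lemma E3 {i j : ι} (h : i ≠ j) : rr j (of i) * cc i (of j) = cc j (of i) * cc i (of j) * rr j (of i) := by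
  apply aut_ext
  intro k
  simp only [MulAut.mul_apply]
  by_cases h1 : k = j
  · subst h1
    rw [cc_ne (Ne.symm h), rr_self, kil_ne h]
    simp only [map_mul, map_inv, cc_ne (Ne.symm h), cc_self, cc_ne h, kil_ne h, kil_ne (Ne.symm h)]
    group
  · by_cases h2 : k = i
    · subst h2
      rw [rr_ne h]
      simp only [map_mul, map_inv, cc_ne h, cc_self, kil_ne (Ne.symm h), kil_ne h, rr_self, rr_ne h]
      group
    · rw [cc_ne h2, rr_ne h1, cc_ne h2, cc_ne h1]

lemma E4 {i j k : ι} (hij : i ≠ j) (hik : i ≠ k) (hjk : j ≠ k) :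
    rr j (of i) * cc i (of k) = rr j ⁅of i, (of k)⁻¹⁆ * cc i (of k) * rr j (of i) := by
  have hkil : kil j ⁅of i, (of k)⁻¹⁆ = ⁅of i, (of k)⁻¹⁆ := by
    rw [map_commutatorElement, map_inv, kil_ne hij, kil_ne (Ne.symm hjk)]
  have t1 : rr j ⁅of i, (of k)⁻¹⁆ (of j) = of j * ⁅of i, (of k)⁻¹⁆ := by rw [rr_self, hkil]
  have t2 : rr j ⁅of i, (of k)⁻¹⁆ (of i) = of i := rr_ne hij _
  have t3 : rr j ⁅of i, (of k)⁻¹⁆ (of k) = of k := rr_ne (Ne.symm hjk) _
  have t4 : ∀ m, m ≠ j → rr j ⁅of i, (of k)⁻¹⁆ (of m) = of m := fun m hm => rr_ne hm _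
  generalize rr j ⁅of i, (of k)⁻¹⁆ = T at t1 t2 t3 t4 ⊢
  apply aut_ext
  intro m
  simp only [MulAut.mul_apply]
  by_cases h1 : m = j
  · subst h1
    rw [cc_ne (Ne.symm hij), rr_self, kil_ne hij]
    simp only [map_mul, map_inv, cc_ne (Ne.symm hij), cc_self, kil_ne (Ne.symm hik), t1, t2, t3,
      commutatorElement_def]
    group
  · by_cases h2 : m = i
    · subst h2
      rw [rr_ne hij]
      simp only [map_mul, map_inv, cc_self, kil_ne (Ne.symm hik), rr_ne hij, rr_ne (Ne.symm hjk),
        t2, t3]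
    · rw [cc_ne h2, rr_ne h1, cc_ne h2, t4 m h1]

lemma conj_eq {H : Type*} [Group H] {a b c : H} (h : a * b = c * a) : a * b * a⁻¹ = c := by
  rw [h, mul_inv_cancel_right]

variable [Fintype ι]

lemma KZ.case4 (h : KZ q) {a b p : ι} (hab : a ≠ b) (hpa : p ≠ a) (hpb : p ≠ b) :
    Commute (q (cc a (of b))) (q (cc p (of a))) := by
  apply commute_of_conj'
  rw [← map_inv, ← map_mul, ← map_mul,
    (CF.pres_cc (i := p) hpa (kil_ne (Ne.symm hpb))).cc, cc_self, kil_ne (Ne.symm hab)]
  exact h.cc_conj p (of b) (of a)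

lemma KZ.seven (h : KZ q) (h4 : 4 ≤ Fintype.card ι) {i j k : ι} (hij : i ≠ j) (hik : i ≠ k)
    (hjk : j ≠ k) : Commute (q (cc i (of j))) (q (rr j ⁅of i, (of k)⁻¹⁆)) := by
  have hY : Commute (q (cc i (of j))) (q (cc i (of k))) := h.cc_comm i _ _
  have e1 : q (rr j (of i)) * q (cc i (of j)) * (q (rr j (of i)))⁻¹ =
      q (cc j (of i)) * q (cc i (of j)) := by
    apply conj_eq
    rw [← map_mul, E3 hij, map_mul, map_mul]
  have e2 : q (rr j (of i)) * q (cc i (of k)) * (q (rr j (of i)))⁻¹ =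
      q (rr j ⁅of i, (of k)⁻¹⁆) * q (cc i (of k)) := by
    apply conj_eq
    rw [← map_mul, E4 hij hik hjk, map_mul, map_mul]
  have c1 : Commute (q (cc j (of i)) * q (cc i (of j)))
      (q (rr j ⁅of i, (of k)⁻¹⁆) * q (cc i (of k))) := by
    rw [← e1, ← e2]
    exact (Commute.conj_iff _).2 hY
  -- `X` commutes with `T` and `A`
  have c2 : Commute (q (cc j (of i))) (q (cc i (of k))) := (h.case4 hik (Ne.symm hij) hjk).symm
  have c3 : Commute (q (cc j (of i))) (q (rr j ⁅of i, (of k)⁻¹⁆)) := by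
    rw [cc_eq, map_mul]
    exact (ll_rr_comm' j _ _).mul_left (h.k3.crr h4 j _ _ _).symm
  have c4 := c3.mul_right c2
  have c5 := c4.inv_left.mul_left c1
  rw [inv_mul_cancel_left] at c5
  have c6 := c5.mul_right hY.inv_right
  rwa [mul_inv_cancel_right] at c6

lemma KZ.five (h : KZ q) (h4 : 4 ≤ Fintype.card ι) {i j : ι} (hij : i ≠ j) :
    Commute (q (cc i (of j))) (q (cc j (of i))) := by
  obtain ⟨k, hki, hkj⟩ := out2 (by omega) i j
  have hR : Commute (q (cc i (of k))) (q (cc j (of i))) := h.case4 (Ne.symm hki) (Ne.symm hij) (Ne.symm hkj)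
  have e1 : q (rr k (of j)) * q (cc i (of k)) * (q (rr k (of j)))⁻¹ =
      q (cc i (of k)) * q (cc i (of j)) := by
    rw [← map_inv, ← map_mul, ← map_mul,
      (CF.pres_rr (i := i) (Ne.symm hki) (kil_ne (Ne.symm hij))).cc, rr_self,
      kil_ne (Ne.symm hkj), map_mul, map_mul]
  have e2 : q (rr k (of j)) * q (cc j (of i)) * (q (rr k (of j)))⁻¹ =
      q (rr k ⁅of j, (of i)⁻¹⁆) * q (cc j (of i)) := by
    apply conj_eq
    rw [← map_mul, E4 (Ne.symm hkj) (Ne.symm hij) hki, map_mul, map_mul]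
  have c1 : Commute (q (cc i (of k)) * q (cc i (of j)))
      (q (rr k ⁅of j, (of i)⁻¹⁆) * q (cc j (of i))) := by
    rw [← e1, ← e2]
    exact (Commute.conj_iff _).2 hR
  have hrr := h.k3.crr h4 k
  have c2 : Commute (q (cc i (of k))) (q (rr k ⁅of j, (of i)⁻¹⁆)) := by
    have h1 := h.seven h4 (i := i) (j := k) (k := j) (Ne.symm hki) hij hkj
    have h2 : q (rr k ⁅of j, (of i)⁻¹⁆) = (q (rr k ⁅of i, (of j)⁻¹⁆))⁻¹ := by
      have a1 := hrr.inv_right (of j) (of i)
      have a2 := hrr.inv_right (of i) (of j)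
      simp only [MonoidHom.comp_apply] at a1 a2
      rw [a1, a2, inv_inv, ← commutatorElement_inv, map_inv, map_inv, inv_inv]
    rw [h2]
    exact h1.inv_right
  have c3 : Commute (q (cc i (of j))) (q (rr k ⁅of j, (of i)⁻¹⁆)) := by
    apply commute_of_conj'
    rw [← map_inv, ← map_mul, ← map_mul,
      (CF.pres_cc (i := k) hki (kil_ne (Ne.symm hkj))).rr, map_commutatorElement (cc i (of j)),
      map_inv (cc i (of j)), cc_ne (Ne.symm hij), cc_self, kil_ne (Ne.symm hij)]
    have e3 : ⁅of j, ((of j)⁻¹ * of i * of j)⁻¹⁆ =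
        (of j)⁻¹ * ⁅of j, (of i)⁻¹⁆ * (of j)⁻¹⁻¹ := by
      simp only [commutatorElement_def]; group
    rw [e3]
    exact hrr.conj (of j)⁻¹ (of j) (of i)⁻¹
  have c4 := c2.mul_right hR
  have c5 := c4.inv_left.mul_left c1
  rw [inv_mul_cancel_left] at c5
  have c6 := c3.inv_right.mul_right c5
  rwa [inv_mul_cancel_left] at c6

/-- the inner automorphism as a product of partial conjugations -/
lemma prod_conj (m : ι) : (((Finset.univ.erase m).toList).map (fun i => cc i (of m))).prod =
    MulAut.conj (of m)⁻¹ := by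
  let l : List ι := (Finset.univ.erase m).toList
  have hl : l.Nodup := Finset.nodup_toList _
  show (l.map (fun i => cc i (of m))).prod = _
  apply aut_ext
  intro j
  rw [prod_cc (of m) l hl, MulAut.conj_apply, inv_inv]
  · by_cases hj : j = m
    · subst hj
      rw [if_neg]
      · group
      · simp [l]
    · rw [if_pos]
      simp [l, hj]
  · intro i hi
    apply kil_ne
    intro h7
    simp [l, h7] at hi

lemma KZ.all_cc (h : KZ q) (h4 : 4 ≤ Fintype.card ι) {i j p k : ι} (hij : i ≠ j) (hpk : p ≠ k)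
    (hjk : j ≠ k) : Commute (q (cc i (of j))) (q (cc p (of k))) := by
  by_cases hip : i = p
  · subst hip; exact h.cc_comm i _ _
  by_cases h1 : i = k
  · subst h1
    by_cases h2 : p = j
    · subst h2; exact h.five h4 hij
    · exact h.case4 hij (Ne.symm hip) h2
  · by_cases h2 : p = j
    · subst h2
      exact (h.case4 hpk hip h1).symm
    · apply commute_of_conj'
      rw [← map_inv, ← map_mul, ← map_mul,
        (CF.pres_cc (i := p) (Ne.symm hip) (kil_ne (Ne.symm h2))).cc, cc_ne (Ne.symm h1)]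

/-- **the inner automorphisms by commutators are killed** -/
theorem KZ.inn (h : KZ q) (h4 : 4 ≤ Fintype.card ι) (j k : ι) :
    q (MulAut.conj ⁅of j, of k⁆) = 1 := by
  by_cases hjk : j = k
  · subst hjk
    rw [commutatorElement_self, map_one, map_one]
  have c : Commute (q (MulAut.conj (of j)⁻¹)) (q (MulAut.conj (of k)⁻¹)) := by
    rw [← prod_conj, ← prod_conj, map_list_prod, map_list_prod]
    apply Commute.list_prod_left
    intro x hx
    apply Commute.list_prod_right
    intro y hy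
    rw [List.mem_map] at hx hy
    obtain ⟨_, hx, rfl⟩ := hx
    obtain ⟨_, hy, rfl⟩ := hy
    rw [List.mem_map] at hx hy
    obtain ⟨i, hi, rfl⟩ := hx
    obtain ⟨p, hp, rfl⟩ := hy
    rw [Finset.mem_toList, Finset.mem_erase] at hi hp
    exact h.all_cc h4 hi.1 hp.1 hjk
  rw [map_inv, map_inv, map_inv, map_inv] at c
  rw [map_commutatorElement, map_commutatorElement, commutatorElement_eq_one_iff_commute]
  simpa using c

end Pool.Agent.V5helper31.CG
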