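import Pool.Agent.V5helper31.CG.U4
import Pool.Agent.V5helper31.CF.Base

set_option autoImplicit false
set_option linter.unusedSectionVars false

/-! The contraction of the second Johnson homomorphism. -/

namespace Pool.Agent.V5helper31.CG

open FreeGroup (of)
open Pool.Agent.Helper460_OutF
open scoped commutatorElement

variable {ι : Type} [Fintype ι] [DecidableEq ι]

instance g2_normal : (g2 ι).Normal := inferInstance
instance g3_normal : (g3 ι).Normal := inferInstance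
instance g4_normal : (g4 ι).Normal := inferInstance

lemma g2_le : g3 ι ≤ g2 ι := Subgroup.commutator_mono (le_top) le_rfl
lemma g3_le : g4 ι ≤ g3 ι := Subgroup.commutator_mono g2_le le_rfl

lemma aut_lcs (c : ℕ) (φ : MulAut (FreeGroup ι)) {x : FreeGroup ι}
    (hx : x ∈ (⊤ : Subgroup (FreeGroup ι)).lowerCentralSeries c) :
    φ x ∈ (⊤ : Subgroup (FreeGroup ι)).lowerCentralSeries c := by
  have h : ((⊤ : Subgroup (FreeGroup ι)).lowerCentralSeries c).Characteristic := inferInstance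
  have h1 := h.fixed φ
  rw [← h1] at hx
  exact hx

/-- the automorphisms acting trivially modulo a term of the lower central series -/
def AT (ι : Type) [Fintype ι] [DecidableEq ι] (c : ℕ) : Subgroup (MulAut (FreeGroup ι)) where
  carrier := {φ | ∀ x, φ x * x⁻¹ ∈ (⊤ : Subgroup (FreeGroup ι)).lowerCentralSeries c}
  mul_mem' := by
    intro φ ψ h1 h2 x
    have e : (φ * ψ) x * x⁻¹ = φ (ψ x * x⁻¹) * (φ x * x⁻¹) := by
      rw [MulAut.mul_apply, map_mul, map_inv]; group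
    rw [e]
    exact mul_mem (aut_lcs c φ (h2 x)) (h1 x)
  one_mem' := by
    intro x
    rw [MulAut.one_apply, mul_inv_cancel]; exact one_mem _
  inv_mem' := by
    intro φ h x
    have e : φ⁻¹ x * x⁻¹ = φ⁻¹ (φ x * x⁻¹)⁻¹ := by
      rw [mul_inv_rev, inv_inv, map_mul, map_inv, MulAut.inv_apply_self]
    rw [e]
    exact aut_lcs c φ⁻¹ (inv_mem (h x))

lemma mem_AT {c : ℕ} {φ : MulAut (FreeGroup ι)} : φ ∈ AT ι c ↔
    ∀ x, φ x * x⁻¹ ∈ (⊤ : Subgroup (FreeGroup ι)).lowerCentralSeries c := Iff.rfl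

instance AT_normal (c : ℕ) : (AT ι c).Normal := by
  refine ⟨fun φ h g x => ?_⟩
  have e : (g * φ * g⁻¹) x * x⁻¹ = g (φ (g⁻¹ x) * (g⁻¹ x)⁻¹) := by
    rw [map_mul, map_inv, MulAut.apply_inv_self]; rfl
  rw [e]
  exact aut_lcs c g (h _)

/-- it suffices to check the generators -/
lemma mem_AT_of {c : ℕ} {φ : MulAut (FreeGroup ι)}
    (h : ∀ i, φ (of i) * (of i)⁻¹ ∈ (⊤ : Subgroup (FreeGroup ι)).lowerCentralSeries c) :
    φ ∈ AT ι c := by
  intro x
  have hn : ((⊤ : Subgroup (FreeGroup ι)).lowerCentralSeries c).Normal := inferInstance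
  induction x using FreeGroup.induction_on with
  | C1 => rw [map_one, mul_inv_cancel]; exact one_mem _
  | of i => exact h i
  | inv_of i ih =>
    show φ (of i)⁻¹ * (of i)⁻¹⁻¹ ∈ _
    have e : φ (of i)⁻¹ * (of i)⁻¹⁻¹ = (φ (of i))⁻¹ * (φ (of i) * (of i)⁻¹)⁻¹ * (φ (of i))⁻¹⁻¹ := by
      rw [map_inv]; group
    rw [e]
    exact hn.conj_mem _ (inv_mem (h i)) _
  | mul x y hx hy =>
    have e : φ (x * y) * (x * y)⁻¹ = φ x * (φ y * y⁻¹) * (φ x)⁻¹ * (φ x * x⁻¹) := by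
      rw [map_mul]; group
    rw [e]
    exact mul_mem (hn.conj_mem _ hy _) hx

lemma lvv_g2 (α : ι → ℤ) {x : FreeGroup ι} (hx : x ∈ g2 ι) : lvv α x = 0 := by
  rw [← PP_a α 0 0]
  exact (map_g2 _ hx).1

lemma kap_mul (α β γ : ι → ℤ) {x y : FreeGroup ι} (hx : x ∈ g3 ι) :
    kap α β γ (x * y) = kap α β γ x + kap α β γ y := by
  unfold kap
  rw [map_mul, U4.f_mul (map_g3 _ hx)]

lemma kap_conj (α β γ : ι → ℤ) {x : FreeGroup ι} (hx : x ∈ g3 ι) (y : FreeGroup ι) :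
    kap α β γ (y * x * y⁻¹) = kap α β γ x := by
  unfold kap
  rw [map_mul, map_mul, map_inv, U4.f_conj (map_g3 _ hx)]

lemma kap_g4 (α β γ : ι → ℤ) {x : FreeGroup ι} (hx : x ∈ g4 ι) : kap α β γ x = 0 := by
  unfold kap
  rw [map_g4 _ hx]
  rfl

lemma kap_one (α β γ : ι → ℤ) : kap α β γ (1 : FreeGroup ι) = 0 := kap_g4 _ _ _ (one_mem _)

/-- automorphisms which act trivially modulo `γ₂` do not change the coordinates -/
lemma kap_IA (α β γ : ι → ℤ) {φ : MulAut (FreeGroup ι)} (hφ : φ ∈ AT ι 1) {x : FreeGroup ι}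
    (hx : x ∈ g3 ι) : kap α β γ (φ x) = kap α β γ x := by
  have h1 : ∀ (α : ι → ℤ) (y : FreeGroup ι), lvv α (φ y) = lvv α y := by
    intro α y
    have := lvv_g2 α (hφ y)
    rw [lvv_mul, lvv_inv] at this
    linarith
  have h2 : ∀ α : ι → ℤ, pull α φ = α := by
    intro α
    funext m
    unfold pull
    rw [h1, lvv_of]
  have h3 : ∀ α : ι → ℤ, pull α (1 : MulAut (FreeGroup ι)) = α := by
    intro α
    funext m
    unfold pull
    rw [MulAut.one_apply, lvv_of]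
  have h4 := kap_aut α β γ (1 : MulAut (FreeGroup ι)) hx
  rw [MulAut.one_apply] at h4
  rw [kap_aut α β γ φ hx, h4]
  apply Finset.sum_congr rfl
  intro i _
  rw [h1, h2, h2, h3, h3]
  rfl

lemma AT_le {c d : ℕ} (h : c ≤ d) : AT ι d ≤ AT ι c := by
  intro φ hφ x
  exact Subgroup.lowerCentralSeries_antitone _ h (hφ x)

/-- The displacement as an additive function. -/
def hh (β γ : ι → ℤ) (a : ι) {φ : MulAut (FreeGroup ι)} (hφ : φ ∈ AT ι 2) :
    FreeGroup ι →* Multiplicative ℤ where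
  toFun y := Multiplicative.ofAdd (kap (Pi.single a 1) β γ (φ y * y⁻¹))
  map_one' := by
    rw [map_one, mul_inv_cancel, kap_one]; rfl
  map_mul' x y := by
    have e : φ (x * y) * (x * y)⁻¹ = φ x * (φ y * y⁻¹) * (φ x)⁻¹ * (φ x * x⁻¹) := by
      rw [map_mul]; group
    have hn : (g3 ι).Normal := inferInstance
    rw [e, kap_mul _ _ _ (hn.conj_mem _ (hφ y) _), kap_conj _ _ _ (hφ y), add_comm]
    rfl

lemma hh_expand (β γ : ι → ℤ) (a : ι) {φ : MulAut (FreeGroup ι)} (hφ : φ ∈ AT ι 2)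
    (y : FreeGroup ι) : kap (Pi.single a 1) β γ (φ y * y⁻¹) =
      ∑ b, lvv (Pi.single b 1) y * kap (Pi.single a 1) β γ (φ (of b) * (of b)⁻¹) :=
  hom_expand (hh β γ a hφ) y

/-- the contraction -/
def c2 (φ : MulAut (FreeGroup ι)) (β γ : ι → ℤ) : ℤ :=
  ∑ i, kap (Pi.single i 1) β γ (φ (of i) * (of i)⁻¹)

lemma c2_mul {φ ψ : MulAut (FreeGroup ι)} (hφ : φ ∈ AT ι 2) (hψ : ψ ∈ AT ι 2) (β γ : ι → ℤ) :
    c2 (φ * ψ) β γ = c2 φ β γ + c2 ψ β γ := by
  unfold c2
  rw [← Finset.sum_add_distrib]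
  apply Finset.sum_congr rfl
  intro i _
  have e : (φ * ψ) (of i) * (of i)⁻¹ = φ (ψ (of i) * (of i)⁻¹) * (φ (of i) * (of i)⁻¹) := by
    rw [MulAut.mul_apply, map_mul, map_inv]; group
  rw [e, kap_mul _ _ _ (aut_lcs 2 φ (hψ _)), kap_IA _ _ _ (AT_le (by norm_num) hφ) (hψ _),
    add_comm]

lemma c2_one (β γ : ι → ℤ) : c2 (1 : MulAut (FreeGroup ι)) β γ = 0 := by
  unfold c2
  apply Finset.sum_eq_zero
  intro i _
  rw [MulAut.one_apply, mul_inv_cancel, kap_one]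

lemma c2_inv {φ : MulAut (FreeGroup ι)} (hφ : φ ∈ AT ι 2) (β γ : ι → ℤ) :
    c2 φ⁻¹ β γ = - c2 φ β γ := by
  have := c2_mul hφ (inv_mem hφ) β γ
  rw [mul_inv_cancel, c2_one] at this
  linarith

lemma c2_AT3 {φ : MulAut (FreeGroup ι)} (hφ : φ ∈ AT ι 3) (β γ : ι → ℤ) : c2 φ β γ = 0 := by
  unfold c2
  apply Finset.sum_eq_zero
  intro i _
  exact kap_g4 _ _ _ (hφ _)

/-- the contraction is natural -/
theorem c2_conj {φ : MulAut (FreeGroup ι)} (hφ : φ ∈ AT ι 2) (g : MulAut (FreeGroup ι))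
    (β γ : ι → ℤ) : c2 (g * φ * g⁻¹) β γ = c2 φ (pull β g) (pull γ g) := by
  unfold c2
  have e : ∀ i, (g * φ * g⁻¹) (of i) * (of i)⁻¹ = g (φ (g⁻¹ (of i)) * (g⁻¹ (of i))⁻¹) := by
    intro i
    rw [map_mul, map_inv, MulAut.apply_inv_self]; rfl
  set β' := pull β g
  set γ' := pull γ g
  have h1 : ∀ i, kap (Pi.single i 1) β γ ((g * φ * g⁻¹) (of i) * (of i)⁻¹) =
      ∑ a, ∑ b, (lvv (Pi.single i 1) (g (of a)) * lvv (Pi.single b 1) (g⁻¹ (of i))) *
        kap (Pi.single a 1) β' γ' (φ (of b) * (of b)⁻¹) := by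
    intro i
    rw [e, kap_aut _ _ _ g (hφ _)]
    apply Finset.sum_congr rfl
    intro a _
    rw [hh_expand β' γ' a hφ, Finset.mul_sum]
    apply Finset.sum_congr rfl
    intro b _
    ring
  simp only [h1]
  rw [Finset.sum_comm]
  apply Finset.sum_congr rfl
  intro a _
  rw [Finset.sum_comm]
  have h2 : ∀ b, ∑ i, lvv (Pi.single i 1) (g (of a)) * lvv (Pi.single b 1) (g⁻¹ (of i)) =
      if a = b then 1 else 0 := by
    intro b
    have h3 := hom_expand ((lv (Pi.single b 1)).comp (g⁻¹ : MulAut (FreeGroup ι)).toMonoidHom)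
      (g (of a))
    have h4 : Multiplicative.toAdd (((lv (Pi.single b (1 : ℤ))).comp
        (g⁻¹ : MulAut (FreeGroup ι)).toMonoidHom) (g (of a))) = lvv (Pi.single b 1) (of a) := by
      show lvv (Pi.single b 1) (g⁻¹ (g (of a))) = _
      rw [MulAut.inv_apply_self]
    rw [h4, lvv_of] at h3
    rw [Pi.single_apply] at h3
    rw [h3]
    rfl
  have h5 : ∀ b, ∑ i, lvv (Pi.single i 1) (g (of a)) * lvv (Pi.single b 1) (g⁻¹ (of i)) *
      kap (Pi.single a 1) β' γ' (φ (of b) * (of b)⁻¹) = (if a = b then 1 else 0) *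
      kap (Pi.single a 1) β' γ' (φ (of b) * (of b)⁻¹) := by
    intro b
    rw [← Finset.sum_mul, h2]
  simp only [h5]
  simp

end Pool.Agent.V5helper31.CG
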