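import Pool.Agent.V5helper31.CG.B
import Pool.Agent.V5helper31.CG.C2

set_option autoImplicit false
set_option linter.unusedSectionVars false

/-! The automorphisms acting trivially modulo the fourth term of the lower central series are in
the normal closure of the transvections `x_i ↦ x_i [[x_j, x_k], x_l]`. -/

namespace Pool.Agent.V5helper31.CG

open Pool.Agent.Helper460_OutF Pool.Agent.Helper460_CSP Pool.Agent.V5helper31.CF
open FreeGroup (of)
open scoped commutatorElement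

variable {ι : Type} [DecidableEq ι]

variable (ι) in
/-- The normal closure of the transvections by triple commutators. -/
def R3 : Subgroup (MulAut (FreeGroup ι)) :=
  Subgroup.normalClosure {x | ∃ i j k l : ι, i ≠ j ∧ i ≠ k ∧ i ≠ l ∧ j ≠ k ∧ j ≠ l ∧ k ≠ l ∧
    x = rr i ⁅⁅of j, of k⁆, of l⁆}

instance R3_normal : (R3 ι).Normal := Subgroup.normalClosure_normal

lemma R3_le {X : Subgroup (MulAut (FreeGroup ι))} [X.Normal]
    (h : ∀ i j k l : ι, i ≠ j → i ≠ k → i ≠ l → j ≠ k → j ≠ l → k ≠ l →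
      rr i ⁅⁅of j, of k⁆, of l⁆ ∈ X) : R3 ι ≤ X := by
  apply Subgroup.normalClosure_le_normal
  rintro _ ⟨i, j, k, l, h1, h2, h3, h4, h5, h6, rfl⟩
  exact h i j k l h1 h2 h3 h4 h5 h6

lemma K3_mk : K3 (QuotientGroup.mk' (R3 ι)) := fun i j k l h1 h2 h3 h4 h5 h6 =>
  mk_eq_one.2 (Subgroup.subset_normalClosure ⟨i, j, k, l, h1, h2, h3, h4, h5, h6, rfl⟩)

variable [Fintype ι]

/-! ### the contraction of the generators -/

lemma comm3_g3 (u v w : FreeGroup ι) : ⁅⁅u, v⁆, w⁆ ∈ g3 ι :=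
  Subgroup.commutator_mem_commutator
    (Subgroup.commutator_mem_commutator (Subgroup.mem_top u) (Subgroup.mem_top v))
    (Subgroup.mem_top w)

lemma comm_g2 (u v : FreeGroup ι) : ⁅u, v⁆ ∈ g2 ι :=
  Subgroup.commutator_mem_commutator (Subgroup.mem_top u) (Subgroup.mem_top v)

lemma rr3_AT {i j k l : ι} (h1 : i ≠ j) (h2 : i ≠ k) (h3 : i ≠ l) :
    rr i ⁅⁅of j, of k⁆, of l⁆ ∈ AT ι 2 := by
  apply mem_AT_of
  intro m
  by_cases hm : m = i
  · subst hm
    rw [rr_self]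
    have hk : kil m ⁅⁅of j, of k⁆, of l⁆ = ⁅⁅of j, of k⁆, of l⁆ := by
      rw [map_commutatorElement, kil_comm2 (Ne.symm h1) (Ne.symm h2), kil_ne (Ne.symm h3)]
    rw [hk]
    have hn : (g3 ι).Normal := inferInstance
    exact hn.conj_mem _ (comm3_g3 _ _ _) _
  · rw [rr_ne hm, mul_inv_cancel]
    exact one_mem _

lemma c2_rr3 {i j k l : ι} (h1 : i ≠ j) (h2 : i ≠ k) (h3 : i ≠ l) (β γ : ι → ℤ) :
    c2 (rr i ⁅⁅of j, of k⁆, of l⁆) β γ = 0 := by
  unfold c2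
  apply Finset.sum_eq_zero
  intro m _
  by_cases hm : m = i
  · subst hm
    rw [rr_self]
    have hk : kil m ⁅⁅of j, of k⁆, of l⁆ = ⁅⁅of j, of k⁆, of l⁆ := by
      rw [map_commutatorElement, kil_comm2 (Ne.symm h1) (Ne.symm h2), kil_ne (Ne.symm h3)]
    rw [hk, kap_conj _ _ _ (comm3_g3 _ _ _)]
    unfold kap
    rw [map_commutatorElement, U4.comm_f (by rw [map_commutatorElement]; exact U4.comm_L2 _ _),
      map_commutatorElement, U4.comm_d, PP_of, PP_of, PP_of]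
    simp [Ne.symm h1, Ne.symm h2, Ne.symm h3]
  · rw [rr_ne hm, mul_inv_cancel, kap_one]

lemma cc_AT {i j k : ι} (h1 : i ≠ j) (h2 : i ≠ k) : cc i ⁅of j, of k⁆ ∈ AT ι 2 := by
  apply mem_AT_of
  intro m
  by_cases hm : m = i
  · subst hm
    rw [cc_self, kil_comm2 (Ne.symm h1) (Ne.symm h2)]
    have e : ⁅of j, of k⁆⁻¹ * of m * ⁅of j, of k⁆ * (of m)⁻¹ = ⁅⁅of j, of k⁆⁻¹, of m⁆ := by
      rw [commutatorElement_def ⁅of j, of k⁆⁻¹, inv_inv]
    rw [e]
    exact Subgroup.commutator_mem_commutator (inv_mem (comm_g2 _ _)) (Subgroup.mem_top _)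
  · rw [cc_ne hm, mul_inv_cancel]
    exact one_mem _

lemma c2_cc {i j k : ι} (h1 : i ≠ j) (h2 : i ≠ k) (β γ : ι → ℤ) :
    c2 (cc i ⁅of j, of k⁆) β γ = β j * γ k - β k * γ j := by
  unfold c2
  rw [Finset.sum_eq_single i]
  · rw [cc_self, kil_comm2 (Ne.symm h1) (Ne.symm h2)]
    have e : ⁅of j, of k⁆⁻¹ * of i * ⁅of j, of k⁆ * (of i)⁻¹ = ⁅⁅of j, of k⁆⁻¹, of i⁆ := by
      rw [commutatorElement_def ⁅of j, of k⁆⁻¹, inv_inv]
    rw [e]
    unfold kap
    rw [map_commutatorElement, U4.comm_f (map_g2 _ (inv_mem (comm_g2 _ _))), map_inv,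
      U4.inv_d, U4.inv_e, map_commutatorElement, U4.comm_d, U4.comm_e, U4.comm_a, U4.comm_b,
      PP_of, PP_of, PP_of]
    simp [Ne.symm h1, Ne.symm h2]
  · intro m _ hm
    rw [cc_ne hm, mul_inv_cancel, kap_one]
  · intro h; exact absurd (Finset.mem_univ i) h

/-- the kernel of the contraction -/
def C0 (ι : Type) [DecidableEq ι] [Fintype ι] : Subgroup (MulAut (FreeGroup ι)) where
  carrier := {φ | φ ∈ AT ι 2 ∧ ∀ β γ, c2 φ β γ = 0}
  mul_mem' := by
    rintro φ ψ ⟨h1, h2⟩ ⟨h3, h4⟩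
    refine ⟨mul_mem h1 h3, fun β γ => ?_⟩
    rw [c2_mul h1 h3, h2, h4, add_zero]
  one_mem' := ⟨one_mem _, fun β γ => c2_one β γ⟩
  inv_mem' := by
    rintro φ ⟨h1, h2⟩
    refine ⟨inv_mem h1, fun β γ => ?_⟩
    rw [c2_inv h1, h2, neg_zero]

instance C0_normal : (C0 ι).Normal := by
  refine ⟨fun φ h g => ⟨(AT_normal 2).conj_mem _ h.1 g, fun β γ => ?_⟩⟩
  rw [c2_conj h.1]
  exact h.2 _ _

lemma R3_le_C0 : R3 ι ≤ C0 ι := R3_le fun i j k l h1 h2 h3 _ _ _ =>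
  ⟨rr3_AT h1 h2 h3, fun β γ => c2_rr3 h1 h2 h3 β γ⟩

/-! ### the preimage of `ZZ` -/

variable (ι) in
/-- the preimage of `ZZ` -/
def KBz : Subgroup (MulAut (FreeGroup ι)) :=
  (ZZ (QuotientGroup.mk' (R3 ι))).comap (QuotientGroup.mk' (R3 ι))

lemma KBz_normal (h5 : 5 ≤ Fintype.card ι) : (KBz ι).Normal := by
  refine ⟨fun n hn g => ?_⟩
  have h1 := K3_mk.all_norm h5 g
  rw [Subgroup.mem_normalizer_iff] at h1
  show QuotientGroup.mk' (R3 ι) (g * n * g⁻¹) ∈ ZZ (QuotientGroup.mk' (R3 ι))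
  rw [map_mul, map_mul, map_inv]
  exact (h1 _).1 hn

lemma cc_mem_KBz (h4 : 4 ≤ Fintype.card ι) (i : ι) (u v : FreeGroup ι) :
    cc i ⁅u, v⁆ ∈ KBz ι := cc_mem_ZZ K3_mk h4 i u v

/-- inner automorphisms by elements of the commutator subgroup -/
lemma inn_mem_KBz (h5 : 5 ≤ Fintype.card ι) {g : FreeGroup ι} (hg : xv g = 0) :
    MulAut.conj g ∈ KBz ι := by
  have h4 : 4 ≤ Fintype.card ι := by omega
  have := KBz_normal (ι := ι) h5
  have hq : KZ (QuotientGroup.mk' (KBz ι)) := fun i j k _ _ =>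
    mk_eq_one.2 (cc_mem_KBz h4 i _ _)
  let κ : FreeGroup ι →* MulAut (FreeGroup ι) ⧸ KBz ι := (QuotientGroup.mk' (KBz ι)).comp MulAut.conj
  have hc : ∀ u v, Commute (κ u) (κ v) := by
    intro u v
    refine commute_of_gen κ (fun j k => ?_) u v
    rw [← commutatorElement_eq_one_iff_commute, ← map_commutatorElement]
    exact hq.inn h4 j k
  have h1 : g ∈ κ.ker := by
    have h2 : commutator (FreeGroup ι) ≤ κ.ker := by
      rw [commutator_def, Subgroup.commutator_le]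
      intro u _ v _
      rw [MonoidHom.mem_ker, map_commutatorElement, commutatorElement_eq_one_iff_commute]
      exact hc u v
    apply h2
    rw [← Abelianization.ker_of, MonoidHom.mem_ker]
    have h3 : xv g = xv (1 : FreeGroup ι) := by rw [hg, xv_one]
    rw [xv_eq_iff.1 h3, map_one]
  exact mk_eq_one.1 h1

/-- inner automorphisms acting trivially modulo `γ₃` -/
lemma xv_of_inn {g : FreeGroup ι} (h2 : 2 ≤ Fintype.card ι)
    (hg : (MulAut.conj g : MulAut (FreeGroup ι)) ∈ AT ι 2) : xv g = 0 := by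
  have h1 : ∀ j, lvv (Pi.single j 1) g = 0 := by
    intro j
    obtain ⟨k, hk⟩ := out1 h2 j
    have h3 := (map_g3 (PP (Pi.single j 1) (Pi.single k 1) 0) (hg (of k))).2.2.2.1
    have e : (MulAut.conj g : MulAut (FreeGroup ι)) (of k) * (of k)⁻¹ = ⁅g, of k⁆ := by
      rw [MulAut.conj_apply]; rfl
    rw [e, map_commutatorElement, U4.comm_d, PP_a, PP_b, PP_of] at h3
    rw [lvv_of] at h3
    simpa [hk, Ne.symm hk] using h3
  have h4 : ∀ w : FreeGroup ι, ∀ j, xv w j = lvv (Pi.single j 1) w := by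
    intro w j
    induction w using FreeGroup.induction_on with
    | C1 => rw [xv_one]; simp [lvv]
    | of l => rw [lvv_of, xv_of, Pi.single_comm]
    | inv_of l ih =>
      show xv (of l)⁻¹ j = lvv _ (of l)⁻¹
      rw [xv_inv, lvv_inv, Pi.neg_apply]
      congr 1
    | mul x y hx hy => rw [xv_mul, lvv_mul, Pi.add_apply, hx, hy]
  funext j
  rw [h4, h1]
  rfl

section ord

variable [LinearOrder ι]

/-- the group `ZZ` is commutative -/
@[reducible] def ZZcomm (h5 : 5 ≤ Fintype.card ι) : CommGroup (ZZ (QuotientGroup.mk' (R3 ι))) :=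
  { (inferInstance : Group (ZZ (QuotientGroup.mk' (R3 ι)))) with
    mul_comm := fun a b => Subtype.ext (K3_mk.ZZ_comm h5 a.2 b.2).eq }

/-- the class of the partial conjugation by `[x_j, x_k]` -/
noncomputable def zc (h5 : 5 ≤ Fintype.card ι) (j k : ι) : ZZ (QuotientGroup.mk' (R3 ι)) :=
  ⟨QuotientGroup.mk' (R3 ι) (cc (out2 (by omega) j k).choose ⁅of j, of k⁆),
    cc_mem_ZZ K3_mk (by omega) _ _ _⟩

lemma zc_eq (h5 : 5 ≤ Fintype.card ι) {i j k : ι} (hij : i ≠ j) (hik : i ≠ k) :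
    ((zc h5 j k : ZZ (QuotientGroup.mk' (R3 ι))) : MulAut (FreeGroup ι) ⧸ R3 ι) =
      QuotientGroup.mk' (R3 ι) (cc i ⁅of j, of k⁆) := by
  have h := (out2 (by omega : 3 ≤ Fintype.card ι) j k).choose_spec
  exact K3_mk.indep (by omega) (Ne.symm h.1) (Ne.symm h.2) (Ne.symm hij) (Ne.symm hik)

/-- the generators, ordered pairs only -/
noncomputable def Xz (h5 : 5 ≤ Fintype.card ι) (p : ι × ι) : ZZ (QuotientGroup.mk' (R3 ι)) :=
  if p.1 < p.2 then zc h5 p.1 p.2 else 1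

lemma zc_swap (h5 : 5 ≤ Fintype.card ι) (j k : ι) : zc h5 k j = (zc h5 j k)⁻¹ := by
  obtain ⟨i, h1, h2⟩ := out2 (by omega : 3 ≤ Fintype.card ι) j k
  apply Subtype.ext
  rw [InvMemClass.coe_inv, zc_eq h5 h1 h2, zc_eq h5 h2 h1, ← commutatorElement_inv, map_inv,
    map_inv]

/-- the coordinates of the contraction -/
def cv (φ : MulAut (FreeGroup ι)) : ι × ι → ℤ := fun p => c2 φ (Pi.single p.1 1) (Pi.single p.2 1)

lemma cv_mul {φ ψ : MulAut (FreeGroup ι)} (hφ : φ ∈ AT ι 2) (hψ : ψ ∈ AT ι 2) :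
    cv (φ * ψ) = cv φ + cv ψ := by
  funext p
  exact c2_mul hφ hψ _ _

lemma cv_cc {i j k : ι} (h1 : i ≠ j) (h2 : i ≠ k) :
    cv (cc i ⁅of j, of k⁆) = Pi.single (j, k) 1 - Pi.single (k, j) 1 := by
  funext p
  obtain ⟨a, b⟩ := p
  show c2 _ _ _ = _
  rw [c2_cc h1 h2]
  simp only [Pi.sub_apply, Pi.single_apply, Prod.mk.injEq]
  by_cases e1 : j = a <;> by_cases e2 : k = b <;> by_cases e3 : k = a <;> by_cases e4 : j = b <;>
    simp [e1, e2, e3, e4, Ne.symm, eq_comm]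

/-- the formula for the class of an element of the preimage of `ZZ` -/
noncomputable def Df (h5 : 5 ≤ Fintype.card ι) : Subgroup (MulAut (FreeGroup ι)) :=
  letI := ZZcomm h5
  { carrier := {φ | φ ∈ AT ι 2 ∧ QuotientGroup.mk' (R3 ι) φ =
      (Rr (Xz h5) (cv φ) : ZZ (QuotientGroup.mk' (R3 ι)))}
    mul_mem' := by
      rintro a b ⟨ha, ha'⟩ ⟨hb, hb'⟩
      refine ⟨mul_mem ha hb, ?_⟩
      rw [map_mul, ha', hb', cv_mul ha hb, Rr_add]
      rfl
    one_mem' := by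
      refine ⟨one_mem _, ?_⟩
      have : cv (1 : MulAut (FreeGroup ι)) = 0 := by
        funext p
        exact c2_one _ _
      rw [map_one, this, Rr_zero]
      rfl
    inv_mem' := by
      rintro a ⟨ha, ha'⟩
      refine ⟨inv_mem ha, ?_⟩
      have : cv a⁻¹ = - cv a := by
        funext p
        exact c2_inv ha _ _
      rw [map_inv, ha', this, Rr_neg]
      rfl }

lemma mem_Df (h5 : 5 ≤ Fintype.card ι) {φ : MulAut (FreeGroup ι)} : φ ∈ Df h5 ↔
    φ ∈ AT ι 2 ∧ QuotientGroup.mk' (R3 ι) φ =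
      ((@Rr _ _ _ (ZZcomm h5) (Xz h5) (cv φ) : ZZ (QuotientGroup.mk' (R3 ι))) :
        MulAut (FreeGroup ι) ⧸ R3 ι) := Iff.rfl

lemma KBz_le (h5 : 5 ≤ Fintype.card ι) : KBz ι ≤ Df h5 := by
  let _ := ZZcomm (ι := ι) h5
  have hR : R3 ι ≤ Df h5 := by
    intro r hr
    have h1 := R3_le_C0 hr
    refine (mem_Df h5).2 ⟨h1.1, ?_⟩
    have : cv r = 0 := by
      funext p
      exact h1.2 _ _
    rw [mk_eq_one.2 hr, this, Rr_zero]
    rfl
  have hgen : ZZ (QuotientGroup.mk' (R3 ι)) ≤ (Df h5).map (QuotientGroup.mk' (R3 ι)) := by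
    refine (Subgroup.closure_le _).2 ?_
    rintro _ ⟨i, j, k, h1, h2, rfl⟩
    refine ⟨_, (mem_Df h5).2 ⟨cc_AT h1 h2, ?_⟩, rfl⟩
    rw [cv_cc h1 h2, Rr_sub, Rr_single, Rr_single]
    rw [← zc_eq h5 h1 h2]
    congr 1
    unfold Xz
    rcases lt_trichotomy j k with h3 | h3 | h3
    · simp only [h3, if_true, not_lt.2 h3.le, if_false]
      rw [inv_one, mul_one]
    · subst h3
      simp only [lt_irrefl, if_false]
      have h4 := zc_eq h5 h1 h1
      rw [commutatorElement_self, map_one, map_one] at h4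
      rw [inv_one, mul_one]
      exact Subtype.ext h4
    · simp only [h3, if_true, not_lt.2 h3.le, if_false]
      rw [one_mul]
      exact zc_swap h5 k j
  intro δ hδ
  obtain ⟨y, hy, hxy⟩ := hgen (show QuotientGroup.mk' (R3 ι) δ ∈ _ from hδ)
  have h2 : y⁻¹ * δ ∈ R3 ι := QuotientGroup.eq.1 hxy
  have h3 := mul_mem hy (hR h2)
  rwa [mul_inv_cancel_left] at h3

/-- an element of the preimage of `ZZ` without contraction is in `R3` -/
lemma mem_R3_of (h5 : 5 ≤ Fintype.card ι) {φ : MulAut (FreeGroup ι)} (h : φ ∈ KBz ι)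
    (h2 : ∀ β γ, c2 φ β γ = 0) : φ ∈ R3 ι := by
  let _ := ZZcomm (ι := ι) h5
  have h3 := ((mem_Df h5).1 (KBz_le h5 h)).2
  have : cv φ = 0 := by
    funext p
    exact h2 _ _
  rw [this, Rr_zero] at h3
  exact mk_eq_one.1 h3

/-! ### the kernel of the first Johnson homomorphism -/

lemma ph_g3 (j k : ι) {x : FreeGroup ι} (hx : x ∈ g3 ι) : ph ℤ j k x = 1 := by
  have h1 : ∀ y ∈ g2 ι, (ph ℤ j k y).a = 0 ∧ (ph ℤ j k y).b = 0 := by
    intro y hy
    refine comm_ind (p := fun y => (ph ℤ j k y).a = 0 ∧ (ph ℤ j k y).b = 0) ?_ ?_ ?_ ?_ y hy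
    · intro u _ v _
      rw [map_commutatorElement, Hs.comm_eq]
      exact ⟨rfl, rfl⟩
    · rw [map_one]; exact ⟨rfl, rfl⟩
    · intro u _ v _ h1 h2
      rw [map_mul, Hs.mul_a, Hs.mul_b, h1.1, h1.2, h2.1, h2.2]
      exact ⟨rfl, rfl⟩
    · intro u _ h1
      rw [map_inv, Hs.inv_a, Hs.inv_b, h1.1, h1.2]
      exact ⟨rfl, rfl⟩
  refine comm_ind (p := fun x => ph ℤ j k x = 1) ?_ ?_ ?_ ?_ x hx
  · intro y hy z _
    rw [map_commutatorElement, commutatorElement_eq_one_iff_mul_comm]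
    exact Hs.central (h1 y hy).1 (h1 y hy).2 _
  · exact map_one _
  · intro u _ v _ h1 h2
    rw [map_mul, h1, h2, one_mul]
  · intro u _ h1
    rw [map_inv, h1, inv_one]

lemma AT1_IA {φ : MulAut (FreeGroup ι)} (h : φ ∈ AT ι 1) : φ ∈ IA (FreeGroup ι) := by
  intro x
  have h2 : Abelianization.of (φ x * x⁻¹) = 1 := by
    rw [← MonoidHom.mem_ker, Abelianization.ker_of]
    exact h x
  rwa [map_mul, map_inv, mul_inv_eq_one] at h2

lemma AT2_NN {φ : MulAut (FreeGroup ι)} (h : φ ∈ AT ι 2) : φ ∈ NN ι := by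
  have hIA : φ ∈ IA (FreeGroup ι) := AT1_IA (AT_le (by norm_num) h)
  have h1 : Jo φ = 0 := by
    funext p
    show (ph ℤ p.2.1 p.2.2 (φ (of p.1))).c = 0
    have h2 := ph_g3 p.2.1 p.2.2 (h (of p.1))
    rw [map_mul, map_inv, mul_inv_eq_one] at h2
    rw [h2, ph_of]
  have h2 := (IA_le_Dd hIA).2
  rw [h1, Rr_zero] at h2
  exact q0_one.1 h2

/-- **the automorphisms acting trivially modulo `γ₄`** -/
theorem AT3_le (h5 : 5 ≤ Fintype.card ι) : AT ι 3 ≤ R3 ι := by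
  intro φ hφ
  have h4 : 4 ≤ Fintype.card ι := by omega
  have hKn := KBz_normal (ι := ι) h5
  have hφ2 : φ ∈ AT ι 2 := AT_le (by norm_num) hφ
  have hNN : NN ι ≤ (MulAut.conj : FreeGroup ι →* MulAut (FreeGroup ι)).range ⊔ KBz ι := by
    have : ((MulAut.conj : FreeGroup ι →* MulAut (FreeGroup ι)).range).Normal := by
      refine ⟨?_⟩
      rintro _ ⟨x, rfl⟩ g
      refine ⟨g x, ?_⟩
      rw [eq_comm, mul_inv_eq_iff_eq_mul]
      ext y
      simp [MulAut.mul_apply, MulAut.conj_apply]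
    apply Subgroup.normalClosure_le_normal
    rintro x (⟨g, rfl⟩ | ⟨i, j, k, h1, h2, rfl⟩)
    · exact Subgroup.mem_sup_left ⟨g, rfl⟩
    · exact Subgroup.mem_sup_right (cc_mem_KBz h4 _ _ _)
  obtain ⟨x, ⟨g, rfl⟩, s, hs, hgs⟩ := Subgroup.mem_sup_of_normal_right.1 (hNN (AT2_NN hφ2))
  have hs2 : s ∈ AT ι 2 := ((mem_Df h5).1 (KBz_le h5 hs)).1
  have hg : (MulAut.conj g : MulAut (FreeGroup ι)) ∈ AT ι 2 := by
    have : (MulAut.conj g : MulAut (FreeGroup ι)) = φ * s⁻¹ := by rw [← hgs, mul_inv_cancel_right]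
    rw [this]
    exact mul_mem hφ2 (inv_mem hs2)
  have hgK := inn_mem_KBz h5 (xv_of_inn (by omega) hg)
  refine mem_R3_of h5 ?_ fun β γ => c2_AT3 hφ β γ
  rw [← hgs]
  exact mul_mem hgK hs

end ord

end Pool.Agent.V5helper31.CG
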