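import Pool.Agent.V5helper31.CG.C
import Pool.Agent.Results.MP_181555_al.RationalHolonomy
import Mathlib.GroupTheory.GroupAction.MultipleTransitivity

set_option autoImplicit false
set_option linter.unusedSectionVars false

/-! Normal subgroups which contain one transvection by a triple commutator. -/

namespace Pool.Agent.V5helper31.CG

open Pool.Agent.Helper460_OutF Pool.Agent.Helper460_CSP Pool.Agent.V5helper31.CF
open FreeGroup (of)
open scoped commutatorElement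

variable {ι : Type} [DecidableEq ι]

/-- the permutation automorphisms -/
def pm (σ : Equiv.Perm ι) : MulAut (FreeGroup ι) := FreeGroup.freeGroupCongr σ

lemma pm_of (σ : Equiv.Perm ι) (i : ι) : pm σ (of i) = of (σ i) := by
  simp [pm]

lemma ap_inv (σ : Equiv.Perm ι) (i : ι) : σ (σ⁻¹ i) = i := σ.apply_symm_apply i

lemma inv_ap (σ : Equiv.Perm ι) (i : ι) : σ⁻¹ (σ i) = i := σ.symm_apply_apply i

lemma pm_inv_of (σ : Equiv.Perm ι) (i : ι) : (pm σ)⁻¹ (of i) = of (σ⁻¹ i) := by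
  apply (pm σ).injective
  rw [pm_of, ← MulAut.mul_apply, mul_inv_cancel, MulAut.one_apply, ap_inv]

lemma pm_kil (σ : Equiv.Perm ι) (i : ι) (w : FreeGroup ι) :
    pm σ (kil i w) = kil (σ i) (pm σ w) := by
  have : (pm σ : FreeGroup ι →* FreeGroup ι).comp (kil i) =
      (kil (σ i)).comp (pm σ : FreeGroup ι →* FreeGroup ι) := by
    ext j
    show pm σ (kil i (of j)) = kil (σ i) (pm σ (of j))
    rw [pm_of]
    by_cases h : j = i
    · subst h; rw [kil_self, kil_self, map_one]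
    · rw [kil_ne h, kil_ne (fun h' => h (σ.injective h')), pm_of]
  exact DFunLike.congr_fun this w

lemma pm_rr (σ : Equiv.Perm ι) (i : ι) (w : FreeGroup ι) :
    pm σ * rr i w * (pm σ)⁻¹ = rr (σ i) (pm σ w) := by
  apply aut_ext
  intro j
  rw [MulAut.mul_apply, MulAut.mul_apply, pm_inv_of]
  by_cases h : j = σ i
  · subst h
    rw [inv_ap, rr_self, rr_self, map_mul, pm_of, pm_kil]
  · have h' : σ⁻¹ j ≠ i := fun h' => h (by rw [← h', ap_inv])
    rw [rr_ne h', rr_ne h, pm_of, ap_inv]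

lemma exists_perm4 {i j k l i' j' k' l' : ι} (h1 : i ≠ j) (h2 : i ≠ k) (h3 : i ≠ l) (h4 : j ≠ k)
    (h5 : j ≠ l) (h6 : k ≠ l) (h1' : i' ≠ j') (h2' : i' ≠ k') (h3' : i' ≠ l') (h4' : j' ≠ k')
    (h5' : j' ≠ l') (h6' : k' ≠ l') :
    ∃ σ : Equiv.Perm ι, σ i = i' ∧ σ j = j' ∧ σ k = k' ∧ σ l = l' := by
  have hinj : ∀ {a b c d : ι}, a ≠ b → a ≠ c → a ≠ d → b ≠ c → b ≠ d → c ≠ d →
      Function.Injective ![a, b, c, d] := by
    intro a b c d e1 e2 e3 e4 e5 e6 x y hxy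
    fin_cases x <;> fin_cases y <;> simp_all
  have hp := Equiv.Perm.isMultiplyPretransitive ι 4
  obtain ⟨σ, hσ⟩ := hp.exists_smul_eq ⟨_, hinj h1 h2 h3 h4 h5 h6⟩
    ⟨_, hinj h1' h2' h3' h4' h5' h6'⟩
  have h : ∀ m : Fin 4, σ (![i, j, k, l] m) = ![i', j', k', l'] m := fun m =>
    DFunLike.congr_fun hσ m
  exact ⟨σ, h 0, h 1, h 2, h 3⟩

theorem R3_of_one {X : Subgroup (MulAut (FreeGroup ι))} [hX : X.Normal] {i j k l : ι}
    (h1 : i ≠ j) (h2 : i ≠ k) (h3 : i ≠ l) (h4 : j ≠ k) (h5 : j ≠ l) (h6 : k ≠ l)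
    (h : rr i ⁅⁅of j, of k⁆, of l⁆ ∈ X) : R3 ι ≤ X := by
  apply R3_le
  intro i' j' k' l' h1' h2' h3' h4' h5' h6'
  obtain ⟨σ, e1, e2, e3, e4⟩ := exists_perm4 h1 h2 h3 h4 h5 h6 h1' h2' h3' h4' h5' h6'
  have := hX.conj_mem _ h (pm σ)
  have e : pm σ ⁅⁅of j, of k⁆, of l⁆ = ⁅⁅of j', of k'⁆, of l'⁆ := by
    rw [map_commutatorElement, map_commutatorElement, pm_of, pm_of, pm_of, e2, e3, e4]
  rwa [pm_rr, e, e1] at this

/-! ### the automorphisms acting trivially modulo `γ₃` -/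

section inn

variable [Fintype ι]

lemma c2_inn (j k : ι) (β γ : ι → ℤ) :
    c2 (MulAut.conj ⁅of j, of k⁆ : MulAut (FreeGroup ι)) β γ =
      - (Fintype.card ι + 1) * (β j * γ k - β k * γ j) := by
  unfold c2
  have h : ∀ m : ι, kap (Pi.single m 1) β γ
      ((MulAut.conj ⁅of j, of k⁆ : MulAut (FreeGroup ι)) (of m) * (of m)⁻¹) =
      (Pi.single m (1 : ℤ) : ι → ℤ) j * β k * γ m - (Pi.single m (1 : ℤ) : ι → ℤ) k * β j * γ m -
        (β j * γ k - β k * γ j) := by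
    intro m
    have e : (MulAut.conj ⁅of j, of k⁆ : MulAut (FreeGroup ι)) (of m) * (of m)⁻¹ =
        ⁅⁅of j, of k⁆, of m⁆ := by rw [MulAut.conj_apply]; rfl
    rw [e]
    unfold kap
    rw [map_commutatorElement, U4.comm_f (by rw [map_commutatorElement]; exact U4.comm_L2 _ _),
      map_commutatorElement, U4.comm_d, U4.comm_e, PP_of, PP_of, PP_of]
    simp only [Pi.single_eq_same]
    ring
  rw [Finset.sum_congr rfl fun m _ => h m, Finset.sum_sub_distrib, Finset.sum_sub_distrib]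
  have h1 : ∀ a b : ι, ∑ m : ι, (Pi.single m (1 : ℤ) : ι → ℤ) a * β b * γ m = β b * γ a := by
    intro a b
    rw [Finset.sum_eq_single a]
    · rw [Pi.single_eq_same, one_mul]
    · intro m _ hm
      rw [Pi.single_eq_of_ne (Ne.symm hm), zero_mul, zero_mul]
    · intro h; exact absurd (Finset.mem_univ a) h
  rw [h1, h1, Finset.sum_const, Finset.card_univ, nsmul_eq_mul]
  ring

variable [LinearOrder ι]

/-- the automorphisms acting trivially modulo `γ₃` -/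
theorem AT2_le (h5 : 5 ≤ Fintype.card ι) : AT ι 2 ≤ KBz ι := by
  intro φ hφ2
  have h4 : 4 ≤ Fintype.card ι := by omega
  have hKn := KBz_normal (ι := ι) h5
  have hNN : NN ι ≤ (MulAut.conj : FreeGroup ι →* MulAut (FreeGroup ι)).range ⊔ KBz ι := by
    have : ((MulAut.conj : FreeGroup ι →* MulAut (FreeGroup ι)).range).Normal := by
      refine ⟨?_⟩
      rintro _ ⟨x, rfl⟩ g
      refine ⟨g x, ?_⟩
      rw [eq_comm, mul_inv_eq_iff_eq_mul]
      ext y
      simp [MulAut.mul_apply, MulAut.conj_apply]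
    apply Subgroup.normalClosure_le_normal
    rintro x (⟨g, rfl⟩ | ⟨i, j, k, h1, h2, rfl⟩)
    · exact Subgroup.mem_sup_left ⟨g, rfl⟩
    · exact Subgroup.mem_sup_right (cc_mem_KBz h4 _ _ _)
  obtain ⟨x, ⟨g, rfl⟩, s, hs, hgs⟩ := Subgroup.mem_sup_of_normal_right.1 (hNN (AT2_NN hφ2))
  have hs2 : s ∈ AT ι 2 := ((mem_Df h5).1 (KBz_le h5 hs)).1
  have hg : (MulAut.conj g : MulAut (FreeGroup ι)) ∈ AT ι 2 := by
    have : (MulAut.conj g : MulAut (FreeGroup ι)) = φ * s⁻¹ := by rw [← hgs, mul_inv_cancel_right]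
    rw [this]
    exact mul_mem hφ2 (inv_mem hs2)
  have hgK := inn_mem_KBz h5 (xv_of_inn (by omega) hg)
  rw [← hgs]
  exact mul_mem hgK hs

/-- **`R3` is the kernel of the contraction** -/
theorem mem_R3_iff (h5 : 5 ≤ Fintype.card ι) {φ : MulAut (FreeGroup ι)} :
    φ ∈ R3 ι ↔ φ ∈ AT ι 2 ∧ ∀ β γ, c2 φ β γ = 0 :=
  ⟨fun h => R3_le_C0 h, fun h => mem_R3_of h5 (AT2_le h5 h.1) h.2⟩

lemma c2_pow {φ : MulAut (FreeGroup ι)} (hφ : φ ∈ AT ι 2) (β γ : ι → ℤ) (m : ℕ) :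
    c2 (φ ^ m) β γ = m * c2 φ β γ := by
  induction m with
  | zero => rw [pow_zero, c2_one]; simp
  | succ m ih => rw [pow_succ, c2_mul (pow_mem hφ m) hφ, ih]; push_cast; ring

theorem power3 (h5 : 5 ≤ Fintype.card ι) {V : Subgroup (MulAut (FreeGroup ι))} [V.Normal]
    (h : R3 ι ≤ V) (hinn : ∀ x, MulAut.conj x ∈ V) {α : MulAut (FreeGroup ι)}
    (hα : α ∈ AT ι 2) : α ^ (Fintype.card ι + 1) ∈ V := by
  have h1 : ∀ i j k : ι, i ≠ j → i ≠ k → cc i ⁅of j, of k⁆ ^ (Fintype.card ι + 1) ∈ V := by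
    intro i j k hij hik
    have h2 : (MulAut.conj ⁅of j, of k⁆ : MulAut (FreeGroup ι)) ∈ AT ι 2 := by
      intro x
      have e : (MulAut.conj ⁅of j, of k⁆ : MulAut (FreeGroup ι)) x * x⁻¹ =
        ⁅⁅of j, of k⁆, x⁆ := by rw [MulAut.conj_apply]; rfl
      rw [e]
      exact comm3_g3 _ _ _
    have h3 : cc i ⁅of j, of k⁆ ^ (Fintype.card ι + 1) *
        (MulAut.conj ⁅of j, of k⁆ : MulAut (FreeGroup ι)) ∈ R3 ι := by
      refine (mem_R3_iff h5).2 ⟨mul_mem (pow_mem (cc_AT hij hik) _) h2, fun β γ => ?_⟩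
      rw [c2_mul (pow_mem (cc_AT hij hik) _) h2, c2_pow (cc_AT hij hik), c2_cc hij hik, c2_inn]
      push_cast
      ring
    have h4 := mul_mem (h h3) (inv_mem (hinn ⁅of j, of k⁆))
    rwa [mul_inv_cancel_right] at h4
  have h2 : QuotientGroup.mk' (R3 ι) α ∈ ZZ (QuotientGroup.mk' (R3 ι)) := AT2_le h5 hα
  have h3 : ∀ a ∈ ZZ (QuotientGroup.mk' (R3 ι)), ∃ b ∈ V, QuotientGroup.mk' (R3 ι) b =
      a ^ (Fintype.card ι + 1) := by
    intro a ha
    induction ha using Subgroup.closure_induction with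
    | mem x hx =>
      obtain ⟨i, j, k, e1, e2, rfl⟩ := hx
      exact ⟨_, h1 i j k e1 e2, map_pow _ _ _⟩
    | one => exact ⟨1, one_mem _, by rw [map_one, one_pow]⟩
    | mul x y hx hy h1 h2 =>
      obtain ⟨b, hb, hb'⟩ := h1
      obtain ⟨c, hc, hc'⟩ := h2
      refine ⟨b * c, mul_mem hb hc, ?_⟩
      rw [map_mul, hb', hc', (K3_mk.ZZ_comm h5 hx hy).mul_pow]
    | inv x _ h1 =>
      obtain ⟨b, hb, hb'⟩ := h1
      exact ⟨b⁻¹, inv_mem hb, by rw [map_inv, hb', inv_pow]⟩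
  obtain ⟨b, hb, hb'⟩ := h3 _ h2
  rw [← map_pow] at hb'
  have h4 := mul_mem hb (h (mk_eq.1 hb'))
  rwa [mul_inv_cancel_left] at h4

end inn

/-! ### The conclusions -/

section conc

variable {n : ℕ} {V : Subgroup (MulAut (FreeGroup (Fin n)))}

lemma good_top (hn : 4 ≤ n) : Pool.Agent.Results.MP_181555_al.RationalHolonomy.Good n ⊤ := by
  obtain ⟨_, _, _, h, _, _⟩ := Pool.Agent.Results.MP_181555_al.RationalHolonomy.result n hn
  have h1 := h 0 1 (fun x => ⟨1, Subsingleton.elim _ _⟩)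
  have h2 : (1 : FreeGroup (Fin n) →* (Fin 0 → ℤˣ)).ker = ⊤ := MonoidHom.ker_one
  rwa [h2] at h1

lemma gamma4_le (h5 : 5 ≤ n) {α : MulAut (FreeGroup (Fin n))}
    (h : ∀ x, α x * x⁻¹ ∈ (⊤ : Subgroup (FreeGroup (Fin n))).lowerCentralSeries 3) :
    α ∈ R3 (Fin n) := AT3_le (by simpa using h5) (mem_AT.2 h)

lemma cong_aut (h5 : 5 ≤ n) (hfin : V.FiniteIndex) (h : R3 (Fin n) ≤ V) :
    ∃ K : Subgroup (FreeGroup (Fin n)), K.Characteristic ∧ K.FiniteIndex ∧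
      ∀ α : MulAut (FreeGroup (Fin n)), (∀ x, α x * x⁻¹ ∈ K) → α ∈ V := by
  have hn : 4 ≤ n := by omega
  obtain ⟨h1, _⟩ := Pool.Agent.Results.MP_181555_al.RationalHolonomy.result n hn
  obtain ⟨_, h2, _⟩ := h1 {⊤} (Set.finite_singleton _) (by
      rintro N rfl
      exact ⟨inferInstance, good_top hn⟩) (by
      rintro N rfl θ
      rw [Set.mem_singleton_iff]
      exact Subgroup.map_top_of_surjective _ θ.surjective)
  exact h2 3 V hfin fun α hα => h (gamma4_le h5 fun x => hα ⊤ rfl x)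

lemma cong_out (h5 : 5 ≤ n) (hfin : V.FiniteIndex) (h : R3 (Fin n) ≤ V)
    (hinn : ∀ x, MulAut.conj x ∈ V) :
    ∃ K : Subgroup (FreeGroup (Fin n)), K.Characteristic ∧ K.FiniteIndex ∧
      ∀ α : MulAut (FreeGroup (Fin n)), (∃ g, ∀ x, α x * (g * x * g⁻¹)⁻¹ ∈ K) → α ∈ V := by
  have hn : 4 ≤ n := by omega
  obtain ⟨h1, _⟩ := Pool.Agent.Results.MP_181555_al.RationalHolonomy.result n hn
  obtain ⟨_, _, h2⟩ := h1 {⊤} (Set.finite_singleton _) (by
      rintro N rfl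
      exact ⟨inferInstance, good_top hn⟩) (by
      rintro N rfl θ
      rw [Set.mem_singleton_iff]
      exact Subgroup.map_top_of_surjective _ θ.surjective)
  refine h2 3 V hfin hinn fun α hα => ?_
  obtain ⟨g, hg⟩ := hα
  have h3 : (MulAut.conj g)⁻¹ * α ∈ R3 (Fin n) := by
    refine gamma4_le h5 fun x => ?_
    have h4 := hg ⊤ rfl x
    have h5 : ((MulAut.conj g)⁻¹ * α) x * x⁻¹ = g⁻¹ * (α x * (g * x * g⁻¹)⁻¹) * g⁻¹⁻¹ := by
      rw [MulAut.mul_apply, MulAut.conj_inv_apply]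
      group
    rw [h5]
    have : ((⊤ : Subgroup (FreeGroup (Fin n))).lowerCentralSeries 3).Normal := inferInstance
    exact this.conj_mem _ h4 _
  have h6 := mul_mem (hinn g) (h h3)
  rwa [mul_inv_cancel_left] at h6

end conc

end Pool.Agent.V5helper31.CG
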