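import Mathlib

set_option autoImplicit false
set_option linter.unusedSectionVars false

/-! The unitriangular group of degree four over `ℤ` and the contraction of the second Johnson
homomorphism. -/

namespace Pool.Agent.V5helper31.CG

open FreeGroup (of)
open scoped commutatorElement

/-- upper unitriangular integral matrices of degree four: `a`, `b`, `c` are the entries above the
diagonal, `d`, `e` the next ones and `f` is the entry in the corner. -/
@[ext] structure U4 where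
  a : ℤ
  b : ℤ
  c : ℤ
  d : ℤ
  e : ℤ
  f : ℤ

namespace U4

instance : Mul U4 := ⟨fun x y => ⟨x.a + y.a, x.b + y.b, x.c + y.c, x.d + y.d + x.a * y.b,
  x.e + y.e + x.b * y.c, x.f + y.f + x.a * y.e + x.d * y.c⟩⟩

instance : One U4 := ⟨⟨0, 0, 0, 0, 0, 0⟩⟩

instance : Inv U4 := ⟨fun x => ⟨-x.a, -x.b, -x.c, -x.d + x.a * x.b, -x.e + x.b * x.c,
  -x.f + x.a * x.e + x.d * x.c - x.a * x.b * x.c⟩⟩

@[simp] lemma mul_a (x y : U4) : (x * y).a = x.a + y.a := rfl
@[simp] lemma mul_b (x y : U4) : (x * y).b = x.b + y.b := rfl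
@[simp] lemma mul_c (x y : U4) : (x * y).c = x.c + y.c := rfl
@[simp] lemma mul_d (x y : U4) : (x * y).d = x.d + y.d + x.a * y.b := rfl
@[simp] lemma mul_e (x y : U4) : (x * y).e = x.e + y.e + x.b * y.c := rfl
@[simp] lemma mul_f (x y : U4) : (x * y).f = x.f + y.f + x.a * y.e + x.d * y.c := rfl
@[simp] lemma one_a : (1 : U4).a = 0 := rfl
@[simp] lemma one_b : (1 : U4).b = 0 := rfl
@[simp] lemma one_c : (1 : U4).c = 0 := rfl
@[simp] lemma one_d : (1 : U4).d = 0 := rfl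
@[simp] lemma one_e : (1 : U4).e = 0 := rfl
@[simp] lemma one_f : (1 : U4).f = 0 := rfl
@[simp] lemma inv_a (x : U4) : (x⁻¹).a = -x.a := rfl
@[simp] lemma inv_b (x : U4) : (x⁻¹).b = -x.b := rfl
@[simp] lemma inv_c (x : U4) : (x⁻¹).c = -x.c := rfl
@[simp] lemma inv_d (x : U4) : (x⁻¹).d = -x.d + x.a * x.b := rfl
@[simp] lemma inv_e (x : U4) : (x⁻¹).e = -x.e + x.b * x.c := rfl
@[simp] lemma inv_f (x : U4) :
    (x⁻¹).f = -x.f + x.a * x.e + x.d * x.c - x.a * x.b * x.c := rfl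

instance : Group U4 := Group.ofLeftAxioms
  (fun x y z => by ext <;> simp <;> ring)
  (fun x => by ext <;> simp)
  (fun x => by ext <;> simp <;> ring)

/-- the elements with `a = b = c = 0` -/
def L2 : Subgroup U4 where
  carrier := {x | x.a = 0 ∧ x.b = 0 ∧ x.c = 0}
  mul_mem' := by
    rintro x y ⟨h1, h2, h3⟩ ⟨h4, h5, h6⟩
    refine ⟨?_, ?_, ?_⟩ <;> simp [*]
  one_mem' := ⟨rfl, rfl, rfl⟩
  inv_mem' := by
    rintro x ⟨h1, h2, h3⟩
    refine ⟨?_, ?_, ?_⟩ <;> simp [*]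

/-- the elements with `a = b = c = d = e = 0` -/
def L3 : Subgroup U4 where
  carrier := {x | x.a = 0 ∧ x.b = 0 ∧ x.c = 0 ∧ x.d = 0 ∧ x.e = 0}
  mul_mem' := by
    rintro x y ⟨h1, h2, h3, h7, h8⟩ ⟨h4, h5, h6, h9, h10⟩
    refine ⟨?_, ?_, ?_, ?_, ?_⟩ <;> simp [*]
  one_mem' := ⟨rfl, rfl, rfl, rfl, rfl⟩
  inv_mem' := by
    rintro x ⟨h1, h2, h3, h4, h5⟩
    refine ⟨?_, ?_, ?_, ?_, ?_⟩ <;> simp [*]

lemma comm_a (x y : U4) : ⁅x, y⁆.a = 0 := by simp [commutatorElement_def]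
lemma comm_b (x y : U4) : ⁅x, y⁆.b = 0 := by simp [commutatorElement_def]
lemma comm_c (x y : U4) : ⁅x, y⁆.c = 0 := by simp [commutatorElement_def]
lemma comm_d (x y : U4) : ⁅x, y⁆.d = x.a * y.b - y.a * x.b := by
  simp [commutatorElement_def]; ring
lemma comm_e (x y : U4) : ⁅x, y⁆.e = x.b * y.c - y.b * x.c := by
  simp [commutatorElement_def]; ring
lemma comm_f {x : U4} (hx : x ∈ L2) (y : U4) : ⁅x, y⁆.f = x.d * y.c - y.a * x.e := by
  obtain ⟨h1, h2, h3⟩ := hx
  simp [commutatorElement_def, h1, h2, h3]; ring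

lemma comm_L2 (x y : U4) : ⁅x, y⁆ ∈ L2 := ⟨comm_a x y, comm_b x y, comm_c x y⟩

lemma comm_L3 {x : U4} (hx : x ∈ L2) (y : U4) : ⁅x, y⁆ ∈ L3 := by
  obtain ⟨h1, h2, h3⟩ := hx
  refine ⟨comm_a x y, comm_b x y, comm_c x y, ?_, ?_⟩
  · rw [comm_d, h1, h2]; ring
  · rw [comm_e, h2, h3]; ring

lemma f_mul {x : U4} (hx : x ∈ L3) (y : U4) : (x * y).f = x.f + y.f := by
  obtain ⟨h1, h2, h3, h4, h5⟩ := hx
  simp [h1, h4]

lemma f_conj {x : U4} (hx : x ∈ L3) (y : U4) : (y * x * y⁻¹).f = x.f := by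
  obtain ⟨h1, h2, h3, h4, h5⟩ := hx
  simp [h1, h2, h3, h4, h5]; ring

end U4

variable {ι : Type}

/-- the second term of the lower central series -/
abbrev g2 (ι : Type) : Subgroup (FreeGroup ι) := (⊤ : Subgroup (FreeGroup ι)).lowerCentralSeries 1
abbrev g3 (ι : Type) : Subgroup (FreeGroup ι) := (⊤ : Subgroup (FreeGroup ι)).lowerCentralSeries 2
abbrev g4 (ι : Type) : Subgroup (FreeGroup ι) := (⊤ : Subgroup (FreeGroup ι)).lowerCentralSeries 3

lemma g2_eq : g2 ι = ⁅(⊤ : Subgroup (FreeGroup ι)), ⊤⁆ := rfl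
lemma g3_eq : g3 ι = ⁅g2 ι, ⊤⁆ := rfl
lemma g4_eq : g4 ι = ⁅g3 ι, ⊤⁆ := rfl

/-- induction over a commutator subgroup -/
lemma comm_ind {G : Type} [Group G] {H K : Subgroup G} {p : G → Prop}
    (h1 : ∀ x ∈ H, ∀ y ∈ K, p ⁅x, y⁆) (h2 : p 1) (h3 : ∀ x ∈ ⁅H, K⁆, ∀ y ∈ ⁅H, K⁆, p x → p y → p (x * y))
    (h4 : ∀ x ∈ ⁅H, K⁆, p x → p x⁻¹) : ∀ x ∈ ⁅H, K⁆, p x := by
  intro x hx
  rw [Subgroup.commutator_def] at hx
  have key : x ∈ ⁅H, K⁆ ∧ p x := by
    induction hx using Subgroup.closure_induction with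
    | mem x hx =>
      obtain ⟨a, ha, b, hb, rfl⟩ := hx
      exact ⟨Subgroup.commutator_mem_commutator ha hb, h1 a ha b hb⟩
    | one => exact ⟨one_mem _, h2⟩
    | mul x y _ _ hx hy => exact ⟨mul_mem hx.1 hy.1, h3 x hx.1 y hy.1 hx.2 hy.2⟩
    | inv x _ hx => exact ⟨inv_mem hx.1, h4 x hx.1 hx.2⟩
  exact key.2

section homs

variable (ρ : FreeGroup ι →* U4)

lemma map_g2 {x : FreeGroup ι} (hx : x ∈ g2 ι) : ρ x ∈ U4.L2 := by
  refine comm_ind (p := fun x => ρ x ∈ U4.L2) ?_ ?_ ?_ ?_ x hx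
  · intro x _ y _
    rw [map_commutatorElement]
    exact U4.comm_L2 _ _
  · rw [map_one]; exact one_mem _
  · intro x _ y _ h1 h2
    rw [map_mul]; exact mul_mem h1 h2
  · intro x _ h1
    rw [map_inv]; exact inv_mem h1

lemma map_g3 {x : FreeGroup ι} (hx : x ∈ g3 ι) : ρ x ∈ U4.L3 := by
  refine comm_ind (p := fun x => ρ x ∈ U4.L3) ?_ ?_ ?_ ?_ x hx
  · intro x hx y _
    rw [map_commutatorElement]
    exact U4.comm_L3 (map_g2 ρ hx) _
  · rw [map_one]; exact one_mem _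
  · intro x _ y _ h1 h2
    rw [map_mul]; exact mul_mem h1 h2
  · intro x _ h1
    rw [map_inv]; exact inv_mem h1

lemma map_g4 {x : FreeGroup ι} (hx : x ∈ g4 ι) : ρ x = 1 := by
  refine comm_ind (p := fun x => ρ x = 1) ?_ ?_ ?_ ?_ x hx
  · intro x hx y _
    rw [map_commutatorElement]
    obtain ⟨h1, h2, h3, h4, h5⟩ := map_g3 ρ hx
    rw [commutatorElement_eq_one_iff_mul_comm]
    ext <;> simp [h1, h2, h3, h4, h5]
    ring
  · exact map_one _
  · intro x _ y _ h1 h2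
    rw [map_mul, h1, h2, one_mul]
  · intro x _ h1
    rw [map_inv, h1, inv_one]

end homs


section kap

variable [Fintype ι] [DecidableEq ι]

/-- the linear form `α` on words -/
def lv (α : ι → ℤ) : FreeGroup ι →* Multiplicative ℤ :=
  FreeGroup.lift fun m => Multiplicative.ofAdd (α m)

/-- the value of the linear form -/
def lvv (α : ι → ℤ) (x : FreeGroup ι) : ℤ := Multiplicative.toAdd (lv α x)

lemma lvv_of (α : ι → ℤ) (m : ι) : lvv α (of m) = α m := by simp [lvv, lv]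

lemma lvv_mul (α : ι → ℤ) (x y : FreeGroup ι) : lvv α (x * y) = lvv α x + lvv α y := by
  simp [lvv]

lemma lvv_inv (α : ι → ℤ) (x : FreeGroup ι) : lvv α x⁻¹ = - lvv α x := by
  simp [lvv]

/-- every homomorphism to `ℤ` is linear in the exponents -/
lemma hom_expand (h : FreeGroup ι →* Multiplicative ℤ) (y : FreeGroup ι) :
    Multiplicative.toAdd (h y) =
      ∑ b, lvv (Pi.single b 1) y * Multiplicative.toAdd (h (of b)) := by
  induction y using FreeGroup.induction_on with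
  | C1 => simp [lvv]
  | of m =>
    simp only [lvv_of]
    rw [Finset.sum_eq_single m]
    · simp
    · intro b _ hb
      rw [Pi.single_apply, if_neg (Ne.symm hb), zero_mul]
    · intro h; exact absurd (Finset.mem_univ m) h
  | inv_of m ih =>
    simp only [map_inv, toAdd_inv, lvv_inv, neg_mul, Finset.sum_neg_distrib]
    simpa using ih
  | mul x y hx hy =>
    simp only [map_mul, toAdd_mul, lvv_mul, add_mul, Finset.sum_add_distrib]
    rw [hx, hy]

/-- the coordinate `a` as a homomorphism -/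
def cha (ρ : FreeGroup ι →* U4) : FreeGroup ι →* Multiplicative ℤ where
  toFun x := Multiplicative.ofAdd (ρ x).a
  map_one' := by simp
  map_mul' x y := by simp
def chb (ρ : FreeGroup ι →* U4) : FreeGroup ι →* Multiplicative ℤ where
  toFun x := Multiplicative.ofAdd (ρ x).b
  map_one' := by simp
  map_mul' x y := by simp
def chc (ρ : FreeGroup ι →* U4) : FreeGroup ι →* Multiplicative ℤ where
  toFun x := Multiplicative.ofAdd (ρ x).c
  map_one' := by simp
  map_mul' x y := by simp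

lemma expand_a (ρ : FreeGroup ι →* U4) (x : FreeGroup ι) :
    (ρ x).a = ∑ b, lvv (Pi.single b 1) x * (ρ (of b)).a := hom_expand (cha ρ) x
lemma expand_b (ρ : FreeGroup ι →* U4) (x : FreeGroup ι) :
    (ρ x).b = ∑ b, lvv (Pi.single b 1) x * (ρ (of b)).b := hom_expand (chb ρ) x
lemma expand_c (ρ : FreeGroup ι →* U4) (x : FreeGroup ι) :
    (ρ x).c = ∑ b, lvv (Pi.single b 1) x * (ρ (of b)).c := hom_expand (chc ρ) x

/-- the homomorphism defined by three linear forms -/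
def PP (α β γ : ι → ℤ) : FreeGroup ι →* U4 :=
  FreeGroup.lift fun m => ⟨α m, β m, γ m, 0, 0, 0⟩

lemma PP_of (α β γ : ι → ℤ) (m : ι) : PP α β γ (of m) = ⟨α m, β m, γ m, 0, 0, 0⟩ := by
  simp [PP]

/-- the trilinear coordinate -/
def kap (α β γ : ι → ℤ) (x : FreeGroup ι) : ℤ := (PP α β γ x).f

/-- linearity in the first form and naturality -/
lemma kap_nat (ρ : FreeGroup ι →* U4) {x : FreeGroup ι} (hx : x ∈ g3 ι) :
    (ρ x).f = ∑ i, (ρ (of i)).a *
      kap (Pi.single i 1) (fun m => (ρ (of m)).b) (fun m => (ρ (of m)).c) x := by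
  set β : ι → ℤ := fun m => (ρ (of m)).b with hβ
  set γ : ι → ℤ := fun m => (ρ (of m)).c with hγ
  let ρs : ι → FreeGroup ι →* U4 := fun i => PP (Pi.single i 1) β γ
  have ha : ∀ x, (ρ x).a = ∑ i, (ρ (of i)).a * (ρs i x).a := by
    intro x
    rw [expand_a]
    apply Finset.sum_congr rfl
    intro i _
    rw [expand_a (ρs i), mul_comm]
    congr 1
    rw [Finset.sum_eq_single i]
    · simp [ρs, PP_of]
    · intro b _ hb
      simp [ρs, PP_of, hb]
    · intro h; exact absurd (Finset.mem_univ i) h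
  have hb : ∀ i x, (ρs i x).b = (ρ x).b := by
    intro i x
    rw [expand_b, expand_b ρ]
    apply Finset.sum_congr rfl
    intro b _
    simp [ρs, PP_of, hβ]
  have hc : ∀ i x, (ρs i x).c = (ρ x).c := by
    intro i x
    rw [expand_c, expand_c ρ]
    apply Finset.sum_congr rfl
    intro b _
    simp [ρs, PP_of, hγ]
  have h2 : ∀ y ∈ g2 ι, (ρ y).d = ∑ i, (ρ (of i)).a * (ρs i y).d ∧
      ∀ i, (ρs i y).e = (ρ y).e := by
    intro y hy
    have hm : ∀ i, ∀ z ∈ g2 ι, (ρs i z).a = 0 := fun i z hz => (map_g2 (ρs i) hz).1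
    have hmb : ∀ z ∈ g2 ι, (ρ z).b = 0 := fun z hz => (map_g2 ρ hz).2.1
    refine comm_ind (p := fun y => (ρ y).d = ∑ i, (ρ (of i)).a * (ρs i y).d ∧
      ∀ i, (ρs i y).e = (ρ y).e) ?_ ?_ ?_ ?_ y hy
    · intro u _ v _
      refine ⟨?_, fun i => ?_⟩
      · simp only [map_commutatorElement, U4.comm_d, hb]
        rw [ha u, ha v, Finset.sum_mul, Finset.sum_mul, ← Finset.sum_sub_distrib]
        apply Finset.sum_congr rfl
        intro i _
        ring
      · simp only [map_commutatorElement, U4.comm_e, hb, hc]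
    · simp
    · intro u hu v hv h1 h2
      refine ⟨?_, fun i => ?_⟩
      · simp only [map_mul, U4.mul_d, h1.1, h2.1, (map_g2 ρ hu).1, zero_mul, add_zero,
          hm _ u hu, ← Finset.sum_add_distrib, mul_add]
      · simp only [map_mul, U4.mul_e, h1.2, h2.2, hb, hc]
    · intro u hu h1
      refine ⟨?_, fun i => ?_⟩
      · simp only [map_inv, U4.inv_d, h1.1, (map_g2 ρ hu).1, zero_mul, add_zero, hm _ u hu,
          mul_neg, Finset.sum_neg_distrib]
      · simp only [map_inv, U4.inv_e, h1.2, hb, hc]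
  refine comm_ind (p := fun x => (ρ x).f = ∑ i, (ρ (of i)).a * (ρs i x).f) ?_ ?_ ?_ ?_ x hx
  · intro y hy z _
    simp only [map_commutatorElement]
    rw [U4.comm_f (map_g2 ρ hy), (h2 y hy).1, ha z, Finset.sum_mul, Finset.sum_mul,
      ← Finset.sum_sub_distrib]
    apply Finset.sum_congr rfl
    intro i _
    rw [U4.comm_f (map_g2 (ρs i) hy), hc, (h2 y hy).2]
    ring
  · simp
  · intro u hu v hv h1 h2
    rw [map_mul, U4.f_mul (map_g3 ρ hu), h1, h2, ← Finset.sum_add_distrib]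
    apply Finset.sum_congr rfl
    intro i _
    rw [map_mul, U4.f_mul (map_g3 (ρs i) hu)]
    ring
  · intro u hu h1
    have h3 : ∀ ρ : FreeGroup ι →* U4, (ρ u⁻¹).f = - (ρ u).f := by
      intro ρ
      have h4 := U4.f_mul (map_g3 ρ hu) (ρ u⁻¹)
      rw [← map_mul, mul_inv_cancel, map_one, U4.one_f] at h4
      linarith
    rw [h3, h1, ← Finset.sum_neg_distrib]
    apply Finset.sum_congr rfl
    intro i _
    rw [h3]
    ring

/-- linear forms and automorphisms -/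
def pull (α : ι → ℤ) (g : MulAut (FreeGroup ι)) : ι → ℤ := fun m => lvv α (g (of m))

lemma PP_a (α β γ : ι → ℤ) (x : FreeGroup ι) : (PP α β γ x).a = lvv α x := by
  have h1 := expand_a (PP α β γ) x
  have h2 := hom_expand (lv α) x
  rw [h1]
  show _ = Multiplicative.toAdd (lv α x)
  rw [h2]
  apply Finset.sum_congr rfl
  intro b _
  rw [PP_of]
  simp [lv]

lemma PP_b (α β γ : ι → ℤ) (x : FreeGroup ι) : (PP α β γ x).b = lvv β x := by
  have h1 := expand_b (PP α β γ) x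
  have h2 := hom_expand (lv β) x
  rw [h1]
  show _ = Multiplicative.toAdd (lv β x)
  rw [h2]
  apply Finset.sum_congr rfl
  intro b _
  rw [PP_of]
  simp [lv]

lemma PP_c (α β γ : ι → ℤ) (x : FreeGroup ι) : (PP α β γ x).c = lvv γ x := by
  have h1 := expand_c (PP α β γ) x
  have h2 := hom_expand (lv γ) x
  rw [h1]
  show _ = Multiplicative.toAdd (lv γ x)
  rw [h2]
  apply Finset.sum_congr rfl
  intro b _
  rw [PP_of]
  simp [lv]

lemma kap_aut (α β γ : ι → ℤ) (g : MulAut (FreeGroup ι)) {x : FreeGroup ι} (hx : x ∈ g3 ι) :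
    kap α β γ (g x) = ∑ i, lvv α (g (of i)) *
      kap (Pi.single i 1) (pull β g) (pull γ g) x := by
  have h := kap_nat ((PP α β γ).comp g.toMonoidHom) hx
  have h1 : ∀ y, ((PP α β γ).comp g.toMonoidHom) y = PP α β γ (g y) := fun _ => rfl
  simp only [h1, PP_a, PP_b, PP_c] at h
  exact h

end kap

end Pool.Agent.V5helper31.CG
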